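import Pool.Agent.Lib.Ram.Defs

namespace Pool.Agent.Lib.MP_cf558f_lc

/-- `X^*`: the set of all concatenations of finite sequences of words of `X`. -/
def star {α : Type} (X : Set (List α)) : Set (List α) :=
  {w | ∃ l : List (List α), (∀ x ∈ l, x ∈ X) ∧ w = l.flatten}

/-- A code in which no word is a proper initial segment of another word. -/
def IsPrefixCode {α : Type} (X : Set (List α)) : Prop :=
  (∀ x ∈ X, x ≠ []) ∧ ∀ x ∈ X, ∀ y ∈ X, x <+: y → x = y

/-- A deterministic finite automaton with translucent words (without the finiteness of the state
set and the alphabet, which are assumed where it is used).  `tau q` is the set of words translucent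
for `q`, and `delta` is the partial transition function.  The last condition says that `tau q` and
the set of letters readable in `q` are disjoint. -/
structure DFAwtw (Q α : Type) where
  tau : Q → Set (List α)
  tau_finite : ∀ q, (tau q).Finite
  start : Q
  final : Set Q
  delta : Q → α → Option Q
  code : ∀ q, (tau q).Nonempty →
    IsPrefixCode (tau q ∪ {x | ∃ a p, delta q a = some p ∧ x = [a]})
  disjoint : ∀ q a p, delta q a = some p → [a] ∉ tau q

/-- Configurations. -/
inductive Cfg (Q α : Type) where
  | run (q : Q) (w : List α)
  | accept
  | reject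

/-- One computation step. -/
inductive Step {Q α : Type} (A : DFAwtw Q α) : Cfg Q α → Cfg Q α → Prop
  | read (q p : Q) (u : List α) (a : α) (v : List α) (hu : u ∈ star (A.tau q))
      (ha : A.delta q a = some p) : Step A (.run q (u ++ a :: v)) (.run p (u ++ v))
  | stuck (q : Q) (u : List α) (a : α) (v : List α) (hu : u ∈ star (A.tau q))
      (ha : A.delta q a = none) (hv : ¬ ∃ x ∈ A.tau q, x <+: a :: v) :
      Step A (.run q (u ++ a :: v)) .reject
  | endAccept (q : Q) (w : List α) (hw : w ∈ star (A.tau q)) (hq : q ∈ A.final) :
      Step A (.run q w) .accept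
  | endReject (q : Q) (w : List α) (hw : w ∈ star (A.tau q)) (hq : q ∉ A.final) :
      Step A (.run q w) .reject

/-- The accepted language. -/
def DFAwtw.language {Q α : Type} (A : DFAwtw Q α) : Set (List α) :=
  {w | Relation.ReflTransGen (Step A) (.run A.start w) .accept}

end Pool.Agent.Lib.MP_cf558f_lc
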