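import Pool.Agent.Lib.MP_cf558f_lc.Scan

namespace Pool.Agent.Lib.MP_cf558f_lc

open Pool.Agent.Lib.Ram

variable {Q α : Type} (A : DFAwtw Q α)

theorem finite_valid [Finite Q] : Finite {t : Option (Q × List α) // Valid A t} := by
  have hfin : {t : Option (Q × List α) | Valid A t}.Finite := by
    have hsub : {t : Option (Q × List α) | Valid A t} ⊆
        {none} ∪ ⋃ q : Q, (fun u => some (q, u)) '' ({[]} ∪ ⋃ y ∈ A.tau q, {u | u <+: y}) := by
      rintro (_ | ⟨q, u⟩) ht
      · left; rfl
      · right
        refine Set.mem_iUnion.mpr ⟨q, u, ?_, rfl⟩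
        rcases ht with h | ⟨y, hy, h⟩
        · left; exact h
        · right; exact Set.mem_biUnion hy h
    refine Set.Finite.subset ?_ hsub
    refine (Set.finite_singleton _).union (Set.finite_iUnion fun q => ?_)
    refine Set.Finite.image _ ((Set.finite_singleton _).union ?_)
    refine (A.tau_finite q).biUnion fun y _ => ?_
    refine Set.Finite.subset (List.finite_toSet y.inits) ?_
    intro u hu
    exact (List.mem_inits u y).mpr hu
  exact hfin.to_subtype

/-- the number of scanning states -/
noncomputable def nS : ℕ := Nat.card {t : Option (Q × List α) // Valid A t}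

noncomputable def eS [Finite Q] : {t : Option (Q × List α) // Valid A t} ≃ Fin (nS A) :=
  haveI := finite_valid A
  Finite.equivFin _

open Classical in
noncomputable def enc [Finite Q] (t : Option (Q × List α)) : ℕ :=
  if h : Valid A t then (eS A ⟨t, h⟩ : ℕ) else 0

noncomputable def dec [Finite Q] (s : ℕ) : Option (Q × List α) :=
  if h : s < nS A then ((eS A).symm ⟨s, h⟩).1 else none

theorem valid_dec [Finite Q] (s : ℕ) : Valid A (dec A s) := by
  unfold dec
  split_ifs
  · exact ((eS A).symm _).2
  · trivial

theorem enc_lt [Finite Q] {t : Option (Q × List α)} (h : Valid A t) : enc A t < nS A := by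
  unfold enc
  rw [dif_pos h]
  exact (eS A _).2

theorem dec_enc [Finite Q] {t : Option (Q × List α)} (h : Valid A t) : dec A (enc A t) = t := by
  have h1 := enc_lt A h
  unfold dec
  rw [dif_pos h1]
  have : (⟨enc A t, h1⟩ : Fin (nS A)) = eS A ⟨t, h⟩ := by
    apply Fin.ext
    simp only [enc, dif_pos h]
  rw [this, Equiv.symm_apply_apply]

theorem valid_root (q : Q) : Valid A (some (q, [])) := Or.inl rfl

theorem dec_root [Finite Q] (q : Q) : dec A (enc A (some (q, []))) = some (q, []) :=
  dec_enc A (valid_root A q)

variable {k : ℕ} (e : α ≃ Fin k)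

def letter (c : ℕ) : Option α := if h : c < k then some (e.symm ⟨c, h⟩) else none

theorem letter_code (a : α) : letter e (e a : ℕ) = some a := by
  unfold letter
  rw [dif_pos (e a).2]
  simp

open Classical in
noncomputable def tab [Finite Q] : Tab where
  S := nS A
  L := k
  nx c s := match letter e c with
    | none => enc A none
    | some a => enc A (tokStep A a (dec A s))
  rt s := isRoot (dec A s)
  dl s c := match dec A s with
    | some (q, []) => match letter e c with
      | none => 0
      | some a => match A.delta q a with
        | none => 0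
        | some p => enc A (some (p, [])) + 1
    | _ => 0
  ac s := match dec A s with
    | some (q, []) => decide (q ∈ A.final)
    | _ => false
  s0 := enc A (some (A.start, []))
  nx_lt c _ s _ := by
    split
    · exact enc_lt A trivial
    · exact enc_lt A (valid_tokStep A _ _)
  dl_le s _ c _ := by
    split
    · split
      · exact Nat.zero_le _
      · split
        · exact Nat.zero_le _
        · exact enc_lt A (Or.inl rfl)
    · exact Nat.zero_le _
  s0_lt := enc_lt A (Or.inl rfl)
  rt_s0 := by
    rw [dec_root]; rfl
  rt_dl s _ c _ s' h := by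
    split at h
    · split at h
      · omega
      · split at h
        · omega
        · have : s' = enc A (some (_, [])) := (Nat.succ.inj h).symm
          rw [this, dec_root]; rfl
    · omega

theorem scan_eq [Finite Q] (lab : ℕ → Option α) (q : Q) (m : ℕ) :
    (tab A e).scan (fun i => (lab i).map fun a => (e a : ℕ)) 0 m (enc A (some (q, [])), 0) =
      (enc A (tscan A lab q m).1, (tscan A lab q m).2) ∧ Valid A (tscan A lab q m).1 := by
  induction m with
  | zero => exact ⟨rfl, Or.inl rfl⟩
  | succ m ih =>
    have hst : (tab A e).scan (fun i => (lab i).map fun a => (e a : ℕ)) 0 (m + 1)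
        (enc A (some (q, [])), 0) = (tab A e).scanStep (fun i => (lab i).map fun a => (e a : ℕ))
        ((tab A e).scan (fun i => (lab i).map fun a => (e a : ℕ)) 0 m
          (enc A (some (q, [])), 0)) m := by
      unfold Tab.scan
      rw [List.range'_1_concat, List.foldl_append]
      simp
    rw [hst, ih.1, tscan_succ]
    rcases hb : lab m with _ | b
    · simp only [Tab.scanStep, tstep, hb, Option.map_none]
      exact ⟨trivial, ih.2⟩
    · simp only [Tab.scanStep, tstep, hb, Option.map_some]
      refine ⟨?_, valid_tokStep A _ _⟩
      simp only [tab, letter_code, dec_enc A ih.2]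

theorem res_correct [Finite Q] {N s : ℕ} {lab' : ℕ → Option ℕ} {b : Bool}
    (h : (tab A e).Res N s lab' b) : ∀ (q : Q) (lab : ℕ → Option α),
      s = enc A (some (q, [])) → (lab' = fun i => (lab i).map fun a => (e a : ℕ)) →
      (b = true ↔ Relation.ReflTransGen (Step A) (.run q (word lab 0 N)) .accept) := by
  induction h with
  | stop s lab' h =>
    rintro q lab rfl rfl
    obtain ⟨h1, h2⟩ := scan_eq A e lab q N
    rw [h1] at h
    have h : enc A (tscan A lab q N).1 = enc A (some (q, [])) := h
    have hroot : (tscan A lab q N).1 = some (q, []) := by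
      rw [← dec_enc A h2, h, dec_root]
    rcases tscan_spec A lab q N with ⟨_, hw⟩ | ⟨hne, _⟩
    · rw [A.acc_end hw]
      simp only [tab, dec_root, decide_eq_true_eq]
    · exact absurd hroot hne
  | rej s i c lab' h hi hc hd =>
    rintro q lab rfl rfl
    obtain ⟨h1, h2⟩ := scan_eq A e lab q N
    rw [h1] at h hi
    rcases tscan_spec A lab q N with ⟨hroot, _⟩ | ⟨_, i', a, hiN, hp, ha, hword, hst, hnp⟩
    · exact absurd (by rw [hroot]) h
    · have : i' = i := by
        have hi : (tscan A lab q N).2 = i + 1 := hi
        omega
      subst this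
      have hc : (lab i').map (fun a => (e a : ℕ)) = some c := hc
      rw [ha] at hc
      have hc : (e a : ℕ) = c := by simpa using hc
      subst hc
      have hd : (tab A e).dl (enc A (some (q, []))) (e a) = 0 := hd
      simp only [tab, dec_root, letter_code] at hd
      have hdel : A.delta q a = none := by
        rcases hx : A.delta q a with _ | p
        · rfl
        · rw [hx] at hd; simp at hd
      rw [hword]
      constructor
      · intro h; cases h
      · intro h; exact (A.acc_stuck hst hdel hnp h).elim
  | go s i c s' lab' b h hi hc hd hr ih =>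
    rintro q lab rfl rfl
    obtain ⟨h1, h2⟩ := scan_eq A e lab q N
    rw [h1] at h hi
    rcases tscan_spec A lab q N with ⟨hroot, _⟩ | ⟨_, i', a, hiN, hp, ha, hword, hst, hnp⟩
    · exact absurd (by rw [hroot]) h
    · have : i' = i := by
        have hi : (tscan A lab q N).2 = i + 1 := hi
        omega
      subst this
      have hc : (lab i').map (fun a => (e a : ℕ)) = some c := hc
      rw [ha] at hc
      have hc : (e a : ℕ) = c := by simpa using hc
      subst hc
      have hd : (tab A e).dl (enc A (some (q, []))) (e a) = s' + 1 := hd
      simp only [tab, dec_root, letter_code] at hd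
      rcases hx : A.delta q a with _ | p
      · rw [hx] at hd; simp at hd
      · rw [hx] at hd
        have hs' : s' = enc A (some (p, [])) := (Nat.succ.inj hd).symm
        rw [hword, A.acc_read hst hx, ← word_delete lab hiN]
        refine ih p (Function.update lab i' none) hs' ?_
        funext j
        by_cases hj : j = i'
        · subst hj; simp
        · simp [Function.update_of_ne hj]

theorem word_input (w : List α) (N : ℕ) (h : w.length ≤ N) :
    word (fun i => w[i]?) 0 N = w := by
  have e : N = w.length + (N - w.length) := by omega
  rw [e, word_add]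
  have h1 : word (fun i => w[i]?) (0 + w.length) (N - w.length) = [] := by
    unfold word
    rw [List.filterMap_eq_nil_iff]
    intro i hi
    rw [List.mem_range'_1] at hi
    exact List.getElem?_eq_none (by omega)
  rw [h1, List.append_nil]
  clear h h1 e
  induction w with
  | nil => rfl
  | cons a w ih =>
    have h2 : (a :: w).length = 1 + w.length := by simp [Nat.add_comm]
    have h3 : word (fun i => (a :: w)[i]?) (0 + 1) w.length = word (fun i => w[i]?) 0 w.length := by
      unfold word
      rw [List.range'_eq_map_range, List.range'_eq_map_range, List.filterMap_map,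
        List.filterMap_map]
      apply List.filterMap_congr
      intro i _
      simp [Nat.add_comm 1 i]
    rw [h2, word_add, h3, ih, word_one]
    simp

/-- Membership in `O(n log n)` steps. -/
theorem main [Finite Q] : ∃ (P : List Instr) (C : ℕ), ∀ w : List α, ∃ s' : Config,
    HaltsWithin P (initial (w.map fun a => (e a : ℕ)))
      (C * ((w.length + 1) * (Nat.log 2 (w.length + 1) + 1))) (C * (w.length + 1)) s' ∧
    (w ∈ A.language → s'.reg 0 = 1) ∧ (w ∉ A.language → s'.reg 0 = 0) := by
  obtain ⟨P, C, h⟩ := (tab A e).machine
  refine ⟨P, C, fun w => ?_⟩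
  obtain ⟨s', N, b, h1, h2, h3, h4⟩ := h (w.map fun a => (e a : ℕ)) (by
    intro x hx
    rw [List.mem_map] at hx
    obtain ⟨a, _, rfl⟩ := hx
    exact (e a).2)
  rw [List.length_map] at h1 h2 h3
  refine ⟨s', h1, ?_⟩
  have hres := res_correct A e h3 A.start (fun i => w[i]?) rfl (by
    funext i
    simp only [labUp]
    split_ifs with hi
    · simp [List.getD_eq_getElem?_getD, hi]
    · rw [List.getElem?_eq_none (by omega)]; rfl)
  rw [word_input w N h2] at hres
  constructor
  · intro hw
    rw [h4, if_pos (hres.mpr hw)]
  · intro hw
    rw [h4, if_neg (fun hb => hw (hres.mp hb))]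

end Pool.Agent.Lib.MP_cf558f_lc
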