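import Pool.Agent.Lib.MP_cf558f_lc.Prog

namespace Pool.Agent.Lib.MP_cf558f_lc

open Pool.Agent.Lib.Ram

variable (D : Tab)

def ph1Loop : Cmd := .loop (.sub (.var 0) (.var 1)) (.assign 1 (.add (.var 1) (.var 1)))

theorem ph1Loop_run {W n : ℕ} {σ : St} (hW : 2 * n ≤ W) (h0 : σ.reg 0 = n) (h1 : σ.reg 1 = 1) :
    Run W ph1Loop σ (n * 14 + 6) (fun σ' => ∃ k, σ'.reg 1 = 2 ^ k ∧ n ≤ 2 ^ k ∧
      (2 ^ k ≤ 2 * n ∨ k = 0) ∧ (∀ r, r ≠ 1 → σ'.reg r = σ.reg r) ∧ σ'.mem = σ.mem) := by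
  refine (Run.loop (fun i σ' => n ≤ i + σ'.reg 1 ∧ (∃ k, σ'.reg 1 = 2 ^ k ∧
    (2 ^ k ≤ 2 * n ∨ k = 0)) ∧ (∀ r, r ≠ 1 → σ'.reg r = σ.reg r) ∧ σ'.mem = σ.mem)
    7 n ?_ ?_ ?_).mono ?_ ?_
  · exact ⟨by omega, ⟨0, by simpa using h1, Or.inr rfl⟩, fun _ _ => rfl, rfl⟩
  · intro _ _ _; exact ⟨trivial, trivial⟩
  · rintro i σ₁ ⟨hi, ⟨k, hk, hk2⟩, hreg, hmem⟩ hne
    have hne : σ₁.reg 0 - σ₁.reg 1 ≠ 0 := hne
    rw [hreg 0 (by omega), h0] at hne
    obtain ⟨i, rfl⟩ : ∃ i', i = i' + 1 := ⟨i - 1, by omega⟩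
    refine ⟨i, rfl, ?_⟩
    have hok : (Expr.add (.var 1) (.var 1)).ok W σ₁ := by
      refine ⟨trivial, trivial, ?_⟩
      simp only [Expr.eval]; omega
    refine Term.run (Term.assign hok ?_) trivial
    have hpos : 0 < σ₁.reg 1 := by rw [hk]; positivity
    have ev : (Expr.add (.var 1) (.var 1)).eval σ₁ = σ₁.reg 1 + σ₁.reg 1 := rfl
    rw [ev]
    refine ⟨?_, ⟨k + 1, ?_, ?_⟩, ?_, hmem⟩
    · simp only [St.set_reg, if_true]; omega
    · simp only [St.set_reg, if_true]; rw [hk, pow_succ]; ring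
    · left; rw [pow_succ, ← hk]; omega
    · intro r hr; simp only [St.set_reg, if_neg hr]; exact hreg r hr
  · show n * (2 + 2 + 1 + 2 + 7) + (2 + 2 + 1 + 1) ≤ _
    omega
  · rintro σ' ⟨he, i, hi, ⟨k, hk, hk2⟩, hreg, hmem⟩
    have he : σ'.reg 0 - σ'.reg 1 = 0 := he
    rw [hreg 0 (by omega), h0] at he
    exact ⟨k, hk, by omega, hk2, hreg, hmem⟩

def Tab.idn1 (s : ℕ) : Cmd := .store (cellE D.R (.var 2) (.lit s)) (.lit s)

def Tab.ph2Body : Cmd := .seq (iter D.S D.idn1) (.assign 2 (.add (.var 2) (.lit 1)))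

def Tab.ph2Loop : Cmd := .loop (.sub (.add (.var 1) (.var 1)) (.var 2)) D.ph2Body

theorem Tab.ph2Loop_run {W n N : ℕ} {σ : St} (hW : n + D.R * (2 * N) ≤ W) (hN0 : 1 ≤ N)
    (h0 : σ.reg 0 = n) (h1 : σ.reg 1 = N) (h2 : σ.reg 2 = 1) (hm : ∀ a, n ≤ a → σ.mem a = 0) :
    Run W D.ph2Loop σ (2 * N * (10 + D.ph2Body.cost) + 9) (fun σ' =>
      (∀ r, r ≠ 2 → σ'.reg r = σ.reg r) ∧ (∀ a < n, σ'.mem a = σ.mem a) ∧
      D.OK σ'.mem n N (fun _ => none) 0) := by
  have hSp := D.S_pos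
  have hRS : D.R = 2 * D.S := rfl
  have h4N : 4 * N ≤ W := by
    have : 2 * (2 * N) ≤ D.R * (2 * N) := Nat.mul_le_mul_right _ (by omega)
    omega
  have hRW : D.R ≤ W := by
    have : D.R * 1 ≤ D.R * (2 * N) := Nat.mul_le_mul_left _ (by omega)
    omega
  refine (Run.loop (fun i σ' => σ'.reg 2 + i = 2 * N ∧ 1 ≤ σ'.reg 2 ∧
    (∀ r, r ≠ 2 → σ'.reg r = σ.reg r) ∧ (∀ a < n, σ'.mem a = σ.mem a) ∧
    (∀ j, 1 ≤ j → j < σ'.reg 2 → ∀ s < D.S, D.rc σ'.mem n j s = s) ∧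
    (∀ j, ∀ s < D.S, D.rc σ'.mem n j (D.S + s) = 0))
    D.ph2Body.cost (2 * N - 1) ?_ ?_ ?_).mono ?_ ?_
  · refine ⟨by omega, by omega, fun _ _ => rfl, fun _ _ => rfl, fun j h1 h2 => by omega, ?_⟩
    intro j s hs
    exact hm _ (by omega)
  · rintro i σ₁ ⟨_, _, hreg, _⟩
    refine ⟨⟨trivial, trivial, ?_⟩, trivial⟩
    simp only [Expr.eval, hreg 1 (by omega), h1]; omega
  · rintro i σ₁ ⟨hi, hi1, hreg, hlow, hT, hP⟩ hne
    have hne : σ₁.reg 1 + σ₁.reg 1 - σ₁.reg 2 ≠ 0 := hne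
    rw [hreg 1 (by omega), h1] at hne
    obtain ⟨i, rfl⟩ : ∃ i', i = i' + 1 := ⟨i - 1, by omega⟩
    refine ⟨i, rfl, ?_⟩
    set j := σ₁.reg 2 with hj
    have c0 : ∀ f < D.R, n + D.R * j + f ≤ W := fun f hf => cell_le hW (by omega) hf
    refine Term.run (Term.seq ?_) ⟨iter_loopFree fun _ => trivial, trivial⟩
    refine (Term.iter (fun k σ' => (∀ r, σ'.reg r = σ₁.reg r) ∧ (∀ a < n, σ'.mem a = σ.mem a) ∧
      (∀ j', 1 ≤ j' → j' < j → ∀ s < D.S, D.rc σ'.mem n j' s = s) ∧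
      (∀ s < k, D.rc σ'.mem n j s = s) ∧
      (∀ j, ∀ s < D.S, D.rc σ'.mem n j (D.S + s) = 0)) ?_ ?_).mono ?_
    · exact ⟨fun _ => rfl, hlow, hT, fun s hs => by omega, hP⟩
    · rintro s hs σ₂ ⟨hreg₂, hlow₂, hT₂, hTj₂, hP₂⟩
      have r0 : σ₂.reg 0 = n := by rw [hreg₂, hreg 0 (by omega), h0]
      have r2 : σ₂.reg 2 = j := hreg₂ 2
      refine Term.store ?_ ?_ ?_
      · refine cellE_ok (i := .var 2) (f := .lit s) trivial ?_ hRW ?_
        · show s ≤ W; omega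
        · simp only [Expr.eval, r0, r2]; exact c0 s (by omega)
      · show s ≤ W; omega
      have ev : (cellE D.R (.var 2) (.lit s)).eval σ₂ = n + D.R * j + s := by
        simp only [Expr.eval, cellE, r0, r2]
      have ev' : (Expr.lit s).eval σ₂ = s := rfl
      rw [ev, ev']
      refine ⟨hreg₂, ?_, ?_, ?_, ?_⟩
      · intro a ha
        simp only [St.put_mem]
        rw [if_neg (by omega)]; exact hlow₂ a ha
      · intro j' h1 h2 s' hs'
        simp only [Tab.rc, St.put_mem]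
        rw [if_neg]
        · exact hT₂ j' h1 h2 s' hs'
        · intro he
          have := (D.rc_inj (by omega) (by omega) he).1
          omega
      · intro s' hs'
        simp only [Tab.rc, St.put_mem]
        by_cases hss : s' = s
        · rw [if_pos (by rw [hss]), hss]
        · rw [if_neg (by omega)]; exact hTj₂ s' (by omega)
      · intro j' s' hs'
        simp only [Tab.rc, St.put_mem]
        rw [if_neg]
        · exact hP₂ j' s' hs'
        · intro he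
          have := (D.rc_inj (by omega) (by omega) he).2
          omega
    · rintro σ₂ ⟨hreg₂, hlow₂, hT₂, hTj₂, hP₂⟩
      refine Term.assign ⟨trivial, ?_, ?_⟩ ?_
      · show 1 ≤ W; omega
      · simp only [Expr.eval, hreg₂ 2]; omega
      have ev : (Expr.add (.var 2) (.lit 1)).eval σ₂ = j + 1 := by
        simp only [Expr.eval, hreg₂ 2]; rfl
      rw [ev]
      refine ⟨?_, ?_, ?_, ?_, ?_, ?_⟩
      · simp only [St.set_reg, if_true]; omega
      · simp only [St.set_reg, if_true]; omega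
      · intro r hr; simp only [St.set_reg, if_neg hr]; rw [hreg₂ r]; exact hreg r hr
      · exact hlow₂
      · intro j' h1 h2 s hs
        simp only [St.set_reg, if_true] at h2
        by_cases hjj : j' = j
        · rw [hjj]; exact hTj₂ s hs
        · exact hT₂ j' h1 (by omega) s hs
      · exact hP₂
  · show (2 * N - 1) * (2 + 2 + 1 + 2 + 1 + 2 + D.ph2Body.cost) + (2 + 2 + 1 + 2 + 1 + 1) ≤ _
    have e : 2 + 2 + 1 + 2 + 1 + 2 + D.ph2Body.cost = 10 + D.ph2Body.cost := by omega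
    rw [e]
    have : (2 * N - 1) * (10 + D.ph2Body.cost) ≤ 2 * N * (10 + D.ph2Body.cost) :=
      Nat.mul_le_mul_right _ (by omega)
    omega
  · rintro σ' ⟨he, i, hi, hi1, hreg, hlow, hT, hP⟩
    have he : σ'.reg 1 + σ'.reg 1 - σ'.reg 2 = 0 := he
    rw [hreg 1 (by omega), h1] at he
    have hr2 : σ'.reg 2 = 2 * N := by omega
    rw [hr2] at hT
    refine ⟨hreg, hlow, ?_, ?_, ?_, ?_, ?_⟩
    · intro p hp s hs; exact hT _ (by omega) (by omega) s hs
    · intro p hp s hs; exact hP _ s hs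
    · intro i h1 h2 _ s hs
      unfold Tab.nT
      rw [hT _ h1 (by omega) s hs, hT (2 * i) (by omega) (by omega) s hs,
        hT _ (by omega) (by omega) s hs]
    · intro i h1 h2 _ s hs
      unfold Tab.nP
      rw [hT (2 * i) (by omega) (by omega) s hs, hP _ s hs, hP _ s hs, hP _ s hs]
      simp
    · intro i h1 h2 s hs
      rw [hT _ h1 h2 s hs]; exact hs

def labUp (x : ℕ → ℕ) (p : ℕ) (i : ℕ) : Option ℕ := if i < p then some (x i) else none

theorem labUp_succ (x : ℕ → ℕ) (p : ℕ) :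
    Function.update (labUp x p) p (some (x p)) = labUp x (p + 1) := by
  funext i
  simp only [Function.update_apply, labUp]
  by_cases h : i = p
  · subst h; simp
  · rw [if_neg h]
    by_cases h2 : i < p
    · rw [if_pos h2, if_pos (by omega)]
    · rw [if_neg h2, if_neg (by omega)]

def Tab.insSw : Cmd := sw (.var 3) D.L fun c => D.setLeaf (D.nx c) D.rt

def Tab.ins : Cmd :=
  .seq (.assign 3 (.load (.var 2))) (.seq D.insSw
    (.seq D.repair (.assign 2 (.add (.var 2) (.lit 1)))))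

def Tab.insCost (k : ℕ) : ℕ := 5 + (D.insSw.cost + (D.repairCost k + 6))

def Tab.ph3Loop : Cmd := .loop (.sub (.var 0) (.var 2)) D.ins

theorem Tab.ph3Loop_run {W n N k : ℕ} {σ : St} (hW : n + D.R * (2 * N) ≤ W) (hN : N = 2 ^ k)
    (hnN : n ≤ N) (hLW : D.L ≤ W)
    (h0 : σ.reg 0 = n) (h1 : σ.reg 1 = N) (h2 : σ.reg 2 = 0) (hm : ∀ a < n, σ.mem a < D.L)
    (hOK : D.OK σ.mem n N (fun _ => none) 0) :
    Run W D.ph3Loop σ (n * (7 + D.insCost k) + 6) (fun σ' =>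
      σ'.reg 0 = n ∧ σ'.reg 1 = N ∧ (∀ a < n, σ'.mem a = σ.mem a) ∧
      D.OK σ'.mem n N (labUp σ.mem n) 0) := by
  have hSp := D.S_pos
  have hRS : D.R = 2 * D.S := rfl
  have hN0 : 1 ≤ N := by rw [hN]; exact Nat.one_le_two_pow
  have h4N : 4 * N ≤ W := by
    have : 2 * (2 * N) ≤ D.R * (2 * N) := Nat.mul_le_mul_right _ (by omega)
    omega
  have hRW : D.R ≤ W := by
    have : D.R * 1 ≤ D.R * (2 * N) := Nat.mul_le_mul_left _ (by omega)
    omega
  refine (Run.loop (fun i σ' => σ'.reg 2 + i = n ∧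
    σ'.reg 0 = n ∧ σ'.reg 1 = N ∧ (∀ a < n, σ'.mem a = σ.mem a) ∧
    D.OK σ'.mem n N (labUp σ.mem (σ'.reg 2)) 0)
    (D.insCost k) n ?_ ?_ ?_).mono ?_ ?_
  · refine ⟨by omega, h0, h1, fun _ _ => rfl, ?_⟩
    rw [h2]
    have : labUp σ.mem 0 = fun _ => none := by funext i; simp [labUp]
    rw [this]; exact hOK
  · intro _ _ _; exact ⟨trivial, trivial⟩
  · rintro i σ₁ ⟨hi, r0, r1, hlow, hOK₁⟩ hne
    have hne : σ₁.reg 0 - σ₁.reg 2 ≠ 0 := hne
    rw [r0] at hne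
    obtain ⟨i, rfl⟩ : ∃ i', i = i' + 1 := ⟨i - 1, by omega⟩
    refine ⟨i, rfl, ?_⟩
    set p := σ₁.reg 2 with hp
    have hpn : p < n := by omega
    have hx : σ₁.mem p = σ.mem p := hlow p hpn
    refine Run.seq (T₁ := 5) (T₂ := D.insSw.cost + (D.repairCost k + 6))
      (Term.run (Term.assign trivial ?_) trivial) le_rfl
    have ev : (Expr.load (.var 2)).eval σ₁ = σ.mem p := hx
    rw [ev]
    set σ₂ := σ₁.set 3 (σ.mem p) with hσ₂
    have ev3 : (Expr.var 3).eval σ₂ = σ.mem p := by simp [hσ₂, Expr.eval]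
    refine Run.seq (T₁ := D.insSw.cost) (T₂ := D.repairCost k + 6)
      (Term.run (Term.sw (e := .var 3) trivial hLW (by rw [ev3]; exact hm p hpn) ?_)
        (sw_loopFree fun _ => D.setLeaf_loopFree _ _)) le_rfl
    rw [ev3]
    refine (D.setLeaf_term (p := p) (t := D.nx (σ.mem p)) (b := D.rt) hW hRW
      (by simpa [hσ₂] using r0) (by simpa [hσ₂] using r1) (by simp [hσ₂, hp]) (by omega)
      (fun s hs => D.nx_lt _ (hm p hpn) s hs)).mono ?_
    rintro σ₃ ⟨hreg₃, hfr₃, hT₃, hP₃⟩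
    have r30 : σ₃.reg 0 = n := by rw [hreg₃]; simpa [hσ₂] using r0
    have r31 : σ₃.reg 1 = N := by rw [hreg₃]; simpa [hσ₂] using r1
    have r32 : σ₃.reg 2 = p := by rw [hreg₃]; simp [hσ₂, hp]
    have hfr₃' : D.Fr σ₁.mem σ₃.mem n (N + p) := hfr₃
    have hOK₃ : D.OK σ₃.mem n N (labUp σ.mem (p + 1)) ((N + p) / 2) := by
      rw [← labUp_succ]
      refine hOK₁.leaf (by omega) (o := some (σ.mem p)) ?_ hT₃ ?_
        (fun i hi f hf => hfr₃'.rc hi hf)
      · intro c hc; cases hc; exact hm p hpn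
      · intro s hs; rw [hP₃ s hs]; rfl
    refine Run.seq (T₁ := D.repairCost k) (T₂ := 6)
      ((D.repair_run hW hRW (by omega) r30 r31 r32 (by omega) hN hOK₃).mono le_rfl ?_) le_rfl
    rintro σ₄ ⟨hreg₄, hlow₄, hOK₄⟩
    refine Term.run (Term.assign (e := .add (.var 2) (.lit 1)) ⟨trivial, ?_, ?_⟩ ?_) trivial
    · show 1 ≤ W; omega
    · simp only [Expr.eval]
      rw [hreg₄ 2 (by omega) (by omega) (by omega), r32]; omega
    have ev4 : (Expr.add (.var 2) (.lit 1)).eval σ₄ = p + 1 := by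
      simp only [Expr.eval]
      rw [hreg₄ 2 (by omega) (by omega) (by omega), r32]
    rw [ev4]
    refine ⟨?_, ?_, ?_, ?_, ?_⟩
    · simp only [St.set_reg, if_true]; omega
    · simp only [St.set_reg]
      rw [if_neg (by omega), hreg₄ 0 (by omega) (by omega) (by omega), r30]
    · simp only [St.set_reg]
      rw [if_neg (by omega), hreg₄ 1 (by omega) (by omega) (by omega), r31]
    · intro a ha
      simp only [St.set_mem]
      rw [hlow₄ a ha, hfr₃'.low ha, hlow a ha]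
    · simp only [St.set_reg, if_true, St.set_mem]
      exact hOK₄
  · show n * (2 + 2 + 1 + 2 + D.insCost k) + (2 + 2 + 1 + 1) ≤ _
    have e : 2 + 2 + 1 + 2 + D.insCost k = 7 + D.insCost k := by omega
    rw [e]
  · rintro σ' ⟨he, i, hi, r0, r1, hlow, hOK'⟩
    have he : σ'.reg 0 - σ'.reg 2 = 0 := he
    rw [r0] at he
    have : σ'.reg 2 = n := by omega
    rw [this] at hOK'
    exact ⟨r0, r1, hlow, hOK'⟩

def lc (N : ℕ) (lab : ℕ → Option ℕ) : ℕ := ((Finset.range N).filter fun i => (lab i).isSome).card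

theorem lc_update {N i c : ℕ} {lab : ℕ → Option ℕ} (hi : i < N) (hc : lab i = some c) :
    lc N (Function.update lab i none) < lc N lab := by
  unfold lc
  apply Finset.card_lt_card
  rw [Finset.ssubset_iff_of_subset]
  · refine ⟨i, ?_, ?_⟩
    · simp [hi, hc]
    · simp
  · intro j hj
    rw [Finset.mem_filter] at hj ⊢
    refine ⟨hj.1, ?_⟩
    by_cases h : j = i
    · subst h; simp at hj
    · rw [Function.update_of_ne h] at hj; exact hj.2

theorem lc_le {n N : ℕ} {lab : ℕ → Option ℕ} (h : ∀ j c, lab j = some c → j < n) :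
    lc N lab ≤ n := by
  unfold lc
  calc _ ≤ (Finset.range n).card := by
        apply Finset.card_le_card
        intro j hj
        rw [Finset.mem_filter, Option.isSome_iff_exists] at hj
        obtain ⟨_, c, hc⟩ := hj
        exact Finset.mem_range.mpr (h j c hc)
    _ = n := Finset.card_range n

def Tab.mA : Cmd := .assign 5 (.load (cellE D.R (.lit 1) (.var 7)))
def Tab.mB : Cmd := .assign 6 (.load (cellE D.R (.lit 1) (.add (.lit D.S) (.var 7))))
def Tab.mC : Cmd := .assign 3 (.load (.sub (.var 6) (.lit 1)))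
def Tab.mSw1 (s : ℕ) : Cmd := sw (.var 3) D.L fun c => .assign 10 (.lit (D.dl s c))
def Tab.mSw : Cmd := sw (.var 7) D.S D.mSw1
def Tab.mAcc : Cmd := sw (.var 7) D.S fun s => .assign 9 (.lit (if D.ac s then 1 else 0))
def mT : Expr := .add (.sub (.var 5) (.var 7)) (.sub (.var 7) (.var 5))
def Tab.mD1 : Cmd := .assign 7 (.sub (.var 10) (.lit 1))
def Tab.mD2 : Cmd := .assign 2 (.sub (.var 6) (.lit 1))
def Tab.mD3 : Cmd := D.setLeaf id (fun _ => false)
def Tab.del : Cmd := .seq Tab.mD1 (.seq Tab.mD2 (.seq D.mD3 D.repair))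
def Tab.mRej : Cmd := .seq (.assign 8 (.lit 0)) (.assign 9 (.lit 0))
def Tab.mStop : Cmd := .seq D.mAcc (.assign 8 (.lit 0))
def Tab.mGo : Cmd := .seq Tab.mC (.seq D.mSw (.ite (.var 10) D.del Tab.mRej))
def Tab.mainBody : Cmd := .seq D.mA (.seq D.mB (.ite mT D.mGo D.mStop))

def Tab.delCost (k : ℕ) : ℕ := Tab.mD1.cost + (Tab.mD2.cost + (D.mD3.cost + D.repairCost k))
def Tab.goCost (k : ℕ) : ℕ := Tab.mC.cost + (D.mSw.cost + (2 + 2 + (D.delCost k + Tab.mRej.cost)))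
def Tab.mainCost (k : ℕ) : ℕ :=
  D.mA.cost + (D.mB.cost + (mT.size + 2 + (D.goCost k + D.mStop.cost)))

theorem Tab.mainBody_run {W n N k : ℕ} {σ : St} {lab : ℕ → Option ℕ}
    (hW : n + D.R * (2 * N) ≤ W) (hN : N = 2 ^ k) (hLW : D.L ≤ W) (h0 : σ.reg 0 = n)
    (h1 : σ.reg 1 = N) (h8 : σ.reg 8 = 1)
    (hs : σ.reg 7 < D.S) (hrt : D.rt (σ.reg 7) = true)
    (hOK : D.OK σ.mem n N lab 0)
    (hlab : ∀ j c, lab j = some c → j < n ∧ σ.mem j = c ∧ c < D.L) :
    Run W D.mainBody σ (D.mainCost k) (fun σ' =>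
      σ'.reg 0 = n ∧ σ'.reg 1 = N ∧ (∀ a < n, σ'.mem a = σ.mem a) ∧
      ((σ'.reg 8 = 1 ∧ ∃ lab', σ'.reg 7 < D.S ∧ D.rt (σ'.reg 7) = true ∧
        D.OK σ'.mem n N lab' 0 ∧ (∀ j c, lab' j = some c → lab j = some c) ∧
        lc N lab' < lc N lab ∧ ∀ b, D.Res N (σ'.reg 7) lab' b → D.Res N (σ.reg 7) lab b) ∨
       (σ'.reg 8 = 0 ∧ ∃ b, D.Res N (σ.reg 7) lab b ∧ σ'.reg 9 = if b then 1 else 0))) := by
  have hSp := D.S_pos
  have hRS : D.R = 2 * D.S := rfl
  have hN0 : 1 ≤ N := by rw [hN]; exact Nat.one_le_two_pow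
  have h4N : 4 * N ≤ W := by
    have : 2 * (2 * N) ≤ D.R * (2 * N) := Nat.mul_le_mul_right _ (by omega)
    omega
  have hRW : D.R ≤ W := by
    have : D.R * 1 ≤ D.R * (2 * N) := Nat.mul_le_mul_left _ (by omega)
    omega
  have c1 : ∀ f < D.R, n + D.R * 1 + f ≤ W := fun f hf => cell_le hW (by omega) hf
  obtain ⟨s, hs7⟩ : ∃ s, σ.reg 7 = s := ⟨_, rfl⟩
  rw [hs7] at hs hrt ⊢
  have hroot := hOK.root hN s hs
  obtain ⟨x, hx⟩ : ∃ x, D.rc σ.mem n 1 s = x := ⟨_, rfl⟩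
  obtain ⟨p, hp⟩ : ∃ p, D.rc σ.mem n 1 (D.S + s) = p := ⟨_, rfl⟩
  rw [hx, hp] at hroot
  have hxS : x < D.S := by rw [← hx]; exact hOK.lt 1 le_rfl (by omega) s hs
  -- first two loads
  refine Run.seq (T₁ := D.mA.cost) (T₂ := D.mB.cost + (mT.size + 2 + (D.goCost k + D.mStop.cost)))
    (Term.run (Term.assign ?_ ?_) trivial) le_rfl
  · refine cellE_ok (i := .lit 1) (f := .var 7) ?_ trivial hRW ?_
    · show 1 ≤ W; omega
    · simp only [Expr.eval, h0, hs7]; exact c1 s (by omega)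
  have ev1 : (Expr.load (cellE D.R (.lit 1) (.var 7))).eval σ = x := by
    simp only [Expr.eval, cellE, h0, hs7]; exact hx
  rw [ev1]
  refine Run.seq (T₁ := D.mB.cost) (T₂ := mT.size + 2 + (D.goCost k + D.mStop.cost))
    (Term.run (Term.assign ?_ ?_) trivial) le_rfl
  · refine cellE_ok (i := .lit 1) (f := .add (.lit D.S) (.var 7)) ?_ ⟨?_, trivial, ?_⟩ hRW ?_
    · show 1 ≤ W; omega
    · show D.S ≤ W; omega
    · simp [Expr.eval, hs7]; omega
    · simp [Expr.eval, h0, hs7]; have := c1 (D.S + s) (by omega); omega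
  have ev2 : (Expr.load (cellE D.R (.lit 1) (.add (.lit D.S) (.var 7)))).eval (σ.set 5 x) = p := by
    simp [Expr.eval, cellE, h0, hs7]; rw [← hp]; simp [Tab.rc]
  rw [ev2]
  set σ₁ := (σ.set 5 x).set 6 p with hσ₁
  have a0 : σ₁.reg 0 = n := by simp [hσ₁, h0]
  have a1 : σ₁.reg 1 = N := by simp [hσ₁, h1]
  have a5 : σ₁.reg 5 = x := by simp [hσ₁]
  have a6 : σ₁.reg 6 = p := by simp [hσ₁]
  have a7 : σ₁.reg 7 = s := by simp [hσ₁, hs7]
  have a8 : σ₁.reg 8 = 1 := by simp [hσ₁, h8]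
  have am : σ₁.mem = σ.mem := rfl
  have evT : mT.eval σ₁ = (x - s) + (s - x) := by simp only [mT, Expr.eval, a5, a7]
  refine Run.ite (T' := D.goCost k + D.mStop.cost) ⟨⟨trivial, trivial⟩, ⟨trivial, trivial⟩, ?_⟩
    (fun hne => ?_) (fun heq => ?_) le_rfl
  · simp only [Expr.eval, a5, a7]; omega
  · -- a letter is found
    rw [evT] at hne
    have hxs : x ≠ s := by omega
    rcases D.scan_root lab s hrt N with h | ⟨i, c, hi, hiN, hc⟩
    · rw [← hroot] at h; simp at h; exact absurd h.1 hxs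
    rw [← hroot] at hi
    have hi : p = i + 1 := hi
    obtain ⟨hin, hmi, hcL⟩ := hlab i c hc
    have hsc1 : (D.scan lab 0 N (s, 0)).1 ≠ s := by rw [← hroot]; exact hxs
    have hsc2 : (D.scan lab 0 N (s, 0)).2 = i + 1 := by rw [← hroot]; exact hi
    refine Run.mono (T := D.goCost k) ?_ (by omega) (fun _ h => h)
    refine Run.seq (T₁ := Tab.mC.cost) (T₂ := D.mSw.cost + (2 + 2 + (D.delCost k + Tab.mRej.cost)))
      (Term.run (Term.assign ?_ ?_) trivial) le_rfl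
    · refine ⟨trivial, ?_⟩
      show 1 ≤ W; omega
    have ev3 : (Expr.load (.sub (.var 6) (.lit 1))).eval σ₁ = c := by
      simp only [Expr.eval, a6, hi, am, Nat.add_sub_cancel]; exact hmi
    rw [ev3]
    set σ₂ := σ₁.set 3 c with hσ₂
    have b7 : (Expr.var 7).eval σ₂ = s := by simp [hσ₂, Expr.eval, a7]
    have b3 : (Expr.var 3).eval σ₂ = c := by simp [hσ₂, Expr.eval]
    refine Run.seq (T₁ := D.mSw.cost) (T₂ := 2 + 2 + (D.delCost k + Tab.mRej.cost))
      (Term.run (Term.sw (e := .var 7) trivial (by omega) (by rw [b7]; exact hs) ?_)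
        (sw_loopFree fun _ => sw_loopFree fun _ => trivial)) le_rfl
    rw [b7]
    refine Term.sw (e := .var 3) trivial hLW (by rw [b3]; exact hcL) ?_
    rw [b3]
    refine Term.assign ?_ ?_
    · show D.dl s c ≤ W; have := D.dl_le s hs c hcL; omega
    have ev4 : (Expr.lit (D.dl s c)).eval σ₂ = D.dl s c := rfl
    rw [ev4]
    set σ₃ := σ₂.set 10 (D.dl s c) with hσ₃
    have c0' : σ₃.reg 0 = n := by simp [hσ₃, hσ₂, a0]
    have c1' : σ₃.reg 1 = N := by simp [hσ₃, hσ₂, a1]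
    have c6 : σ₃.reg 6 = i + 1 := by simp [hσ₃, hσ₂, a6, hi]
    have c8 : σ₃.reg 8 = 1 := by simp [hσ₃, hσ₂, a8]
    have c10 : σ₃.reg 10 = D.dl s c := by simp [hσ₃]
    have cm : σ₃.mem = σ.mem := rfl
    refine Run.ite (T' := D.delCost k + Tab.mRej.cost) trivial
      (fun hne => ?_) (fun heq => ?_) le_rfl
    · -- delete
      have hne : σ₃.reg 10 ≠ 0 := hne
      rw [c10] at hne
      obtain ⟨s', hs'⟩ : ∃ s', D.dl s c = s' + 1 := ⟨D.dl s c - 1, by omega⟩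
      have hs'S : s' < D.S := by have := D.dl_le s hs c hcL; omega
      refine Run.mono (T := D.delCost k) ?_ (by omega) (fun _ h => h)
      refine Run.seq (T₁ := Tab.mD1.cost) (T₂ := Tab.mD2.cost + (D.mD3.cost + D.repairCost k))
        (Term.run (Term.assign (e := .sub (.var 10) (.lit 1)) ⟨trivial, ?_⟩ ?_) trivial) le_rfl
      · show 1 ≤ W; omega
      have ev5 : (Expr.sub (.var 10) (.lit 1)).eval σ₃ = s' := by
        simp only [Expr.eval, c10, hs', Nat.add_sub_cancel]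
      rw [ev5]
      refine Run.seq (T₁ := Tab.mD2.cost) (T₂ := D.mD3.cost + D.repairCost k)
        (Term.run (Term.assign (e := .sub (.var 6) (.lit 1)) ⟨trivial, ?_⟩ ?_) trivial) le_rfl
      · show 1 ≤ W; omega
      have ev6 : (Expr.sub (.var 6) (.lit 1)).eval (σ₃.set 7 s') = i := by
        simp [Expr.eval, c6]
      rw [ev6]
      refine Run.seq (T₁ := D.mD3.cost) (T₂ := D.repairCost k)
        ((Term.run ((D.setLeaf_term (p := i) (t := id) (b := fun _ => false) hW hRW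
          (by simpa using c0') (by simpa using c1') (by simp) (by omega)
          (fun s hs => hs)).mono ?_) (D.setLeaf_loopFree _ _))) le_rfl
      rintro σ₄ ⟨hreg₄, hfr₄, hT₄, hP₄⟩
      have hfr₄' : D.Fr σ.mem σ₄.mem n (N + i) := hfr₄
      have hOK₄ : D.OK σ₄.mem n N (Function.update lab i none) ((N + i) / 2) := by
        refine hOK.leaf (by omega) (o := none) ?_ ?_ ?_ (fun i hi f hf => hfr₄'.rc hi hf)
        · intro c hc; cases hc
        · intro s hs; rw [hT₄ s hs]; rfl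
        · intro s hs; rw [hP₄ s hs]; rfl
      refine (D.repair_run (p := i) hW hRW (by omega) ?_ ?_ ?_ (by omega) hN hOK₄).mono le_rfl ?_
      · rw [hreg₄]; simpa using c0'
      · rw [hreg₄]; simpa using c1'
      · rw [hreg₄]; simp
      · rintro σ₅ ⟨hreg₅, hlow₅, hOK₅⟩
        have d7 : σ₅.reg 7 = s' := by
          rw [hreg₅ 7 (by omega) (by omega) (by omega), hreg₄]; simp
        refine ⟨?_, ?_, ?_, Or.inl ⟨?_, Function.update lab i none, ?_, ?_, hOK₅, ?_, ?_, ?_⟩⟩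
        · rw [hreg₅ 0 (by omega) (by omega) (by omega), hreg₄]; simpa using c0'
        · rw [hreg₅ 1 (by omega) (by omega) (by omega), hreg₄]; simpa using c1'
        · intro a ha; rw [hlow₅ a ha, hfr₄'.low ha]
        · rw [hreg₅ 8 (by omega) (by omega) (by omega), hreg₄]; simpa using c8
        · rw [d7]; exact hs'S
        · rw [d7]; exact D.rt_dl s hs c hcL s' hs'
        · intro j c' hj
          by_cases h : j = i
          · subst h; simp at hj
          · rwa [Function.update_of_ne h] at hj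
        · exact lc_update hiN hc
        · intro b hb
          rw [d7] at hb
          exact .go s i c s' lab b hsc1 hsc2 hc hs' hb
    · -- reject
      have heq : σ₃.reg 10 = 0 := heq
      rw [c10] at heq
      refine Run.mono (T := Tab.mRej.cost) ?_ (by omega) (fun _ h => h)
      refine Term.run (Term.seq (Term.assign (Nat.zero_le _) (Term.assign (Nat.zero_le _) ?_)))
        ⟨trivial, trivial⟩
      refine ⟨?_, ?_, ?_, Or.inr ⟨?_, false, .rej s i c lab hsc1 hsc2 hc heq, ?_⟩⟩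
      · simp [c0']
      · simp [c1']
      · intro a ha; simp [cm]
      · simp [Expr.eval]
      · simp [Expr.eval]
  · -- stop
    rw [evT] at heq
    have hxs : x = s := by omega
    refine Run.mono (T := D.mStop.cost) ?_ (by omega) (fun _ h => h)
    have b7 : (Expr.var 7).eval σ₁ = s := by simp [Expr.eval, a7]
    refine Term.run (Term.seq (Term.sw (e := .var 7) trivial (by omega) (by rw [b7]; exact hs) ?_))
      ⟨sw_loopFree fun _ => trivial, trivial⟩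
    rw [b7]
    refine Term.assign ?_ (Term.assign (Nat.zero_le _) ?_)
    · show (if D.ac s then 1 else 0) ≤ W; split_ifs <;> omega
    refine ⟨?_, ?_, ?_, Or.inr ⟨?_, D.ac s, .stop s lab (by rw [← hroot]; exact hxs), ?_⟩⟩
    · simp [a0]
    · simp [a1]
    · intro a ha; simp [am]
    · simp [Expr.eval]
    · simp [Expr.eval]

def Tab.mainLoop : Cmd := .loop (.var 8) D.mainBody

theorem Tab.mainLoop_run {W n N k : ℕ} {σ : St} {lab : ℕ → Option ℕ}
    (hW : n + D.R * (2 * N) ≤ W) (hN : N = 2 ^ k) (hLW : D.L ≤ W) (h0 : σ.reg 0 = n)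
    (h1 : σ.reg 1 = N) (h8 : σ.reg 8 = 1) (h7 : σ.reg 7 = D.s0)
    (hOK : D.OK σ.mem n N lab 0)
    (hlab : ∀ j c, lab j = some c → j < n ∧ σ.mem j = c ∧ c < D.L) :
    Run W D.mainLoop σ ((n + 1) * (4 + D.mainCost k) + 3) (fun σ' =>
      ∃ b, D.Res N D.s0 lab b ∧ σ'.reg 9 = if b then 1 else 0) := by
  refine (Run.loop (fun i σ' => σ'.reg 0 = n ∧ σ'.reg 1 = N ∧ (∀ a < n, σ'.mem a = σ.mem a) ∧
    ((σ'.reg 8 = 1 ∧ ∃ lab', σ'.reg 7 < D.S ∧ D.rt (σ'.reg 7) = true ∧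
        D.OK σ'.mem n N lab' 0 ∧ (∀ j c, lab' j = some c → lab j = some c) ∧
        lc N lab' < i ∧ ∀ b, D.Res N (σ'.reg 7) lab' b → D.Res N D.s0 lab b) ∨
       (σ'.reg 8 = 0 ∧ ∃ b, D.Res N D.s0 lab b ∧ σ'.reg 9 = if b then 1 else 0)))
    (D.mainCost k) (n + 1) ?_ ?_ ?_).mono ?_ ?_
  · refine ⟨h0, h1, fun _ _ => rfl, Or.inl ⟨h8, lab, ?_, ?_, hOK, fun _ _ h => h, ?_, ?_⟩⟩
    · rw [h7]; exact D.s0_lt
    · rw [h7]; exact D.rt_s0
    · have := lc_le (N := N) (fun j c h => (hlab j c h).1); omega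
    · intro b hb; rwa [h7] at hb
  · intro _ _ _; trivial
  · rintro i σ₁ ⟨r0, r1, hlow, hor⟩ hne
    have hne : σ₁.reg 8 ≠ 0 := hne
    rcases hor with ⟨h8, lab', hs, hrt, hOK', hsub, hlc, hres⟩ | ⟨h8, _⟩
    swap
    · exact absurd h8 hne
    obtain ⟨i, rfl⟩ : ∃ i', i = i' + 1 := ⟨i - 1, by omega⟩
    refine ⟨i, rfl, ?_⟩
    refine (D.mainBody_run hW hN hLW r0 r1 h8 hs hrt hOK' ?_).mono le_rfl ?_
    · intro j c hj
      obtain ⟨a1, a2, a3⟩ := hlab j c (hsub j c hj)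
      exact ⟨a1, by rw [hlow j a1]; exact a2, a3⟩
    · rintro σ₂ ⟨q0, q1, qlow, hor⟩
      refine ⟨q0, q1, fun a ha => by rw [qlow a ha, hlow a ha], ?_⟩
      rcases hor with ⟨h8', lab'', hs', hrt', hOK'', hsub', hlc', hres'⟩ | ⟨h8', b, hb, h9⟩
      · exact Or.inl ⟨h8', lab'', hs', hrt', hOK'', fun j c h => hsub j c (hsub' j c h), by omega,
          fun b hb => hres b (hres' b hb)⟩
      · exact Or.inr ⟨h8', b, hres b hb, h9⟩
  · show (n + 1) * (2 + 2 + D.mainCost k) + (2 + 1) ≤ _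
    have e : 2 + 2 + D.mainCost k = 4 + D.mainCost k := by omega
    rw [e]
  · rintro σ' ⟨he, i, _, _, _, hor⟩
    have he : σ'.reg 8 = 0 := he
    rcases hor with ⟨h8, _⟩ | ⟨_, b, hb, h9⟩
    · omega
    · exact ⟨b, hb, h9⟩

def Tab.prog : Cmd :=
  .seq (.assign 1 (.lit 1)) (.seq ph1Loop (.seq (.assign 2 (.lit 1)) (.seq D.ph2Loop
    (.seq (.assign 2 (.lit 0)) (.seq D.ph3Loop (.seq (.assign 7 (.lit D.s0))
      (.seq (.assign 8 (.lit 1)) (.seq D.mainLoop (.assign 0 (.var 9))))))))))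

def Tab.c4 (n k : ℕ) : ℕ := 3 + (3 + (((n + 1) * (4 + D.mainCost k) + 3) + 4))
def Tab.c3 (n k : ℕ) : ℕ := 3 + ((n * (7 + D.insCost k) + 6) + D.c4 n k)
def Tab.c2 (n N k : ℕ) : ℕ := 3 + ((2 * N * (10 + D.ph2Body.cost) + 9) + D.c3 n k)
def Tab.c1 (n k : ℕ) : ℕ := 3 + ((n * 14 + 6) + D.c2 n (2 * n + 1) k)

theorem Tab.insCost_mono {k k' : ℕ} (h : k ≤ k') : D.insCost k ≤ D.insCost k' := by
  unfold Tab.insCost Tab.repairCost
  have := Nat.mul_le_mul_right (4 + D.propBody) h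
  omega

theorem Tab.mainCost_mono {k k' : ℕ} (h : k ≤ k') : D.mainCost k ≤ D.mainCost k' := by
  unfold Tab.mainCost Tab.goCost Tab.delCost Tab.repairCost
  have := Nat.mul_le_mul_right (4 + D.propBody) h
  omega

theorem Tab.c3_mono {n k k' : ℕ} (h : k ≤ k') : D.c3 n k ≤ D.c3 n k' := by
  unfold Tab.c3 Tab.c4
  have h1 := Nat.mul_le_mul_left n (Nat.add_le_add_left (D.insCost_mono h) 7)
  have h2 := Nat.mul_le_mul_left (n + 1) (Nat.add_le_add_left (D.mainCost_mono h) 4)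
  omega

theorem Tab.prog_run {W : ℕ} (x : List ℕ) (hx : ∀ a ∈ x, a < D.L)
    (hW : x.length + D.R * (2 * (2 * x.length + 1)) ≤ W) (hLW : D.L ≤ W) :
    Run W D.prog ⟨fun i => if i = 0 then x.length else 0, fun i => x.getD i 0⟩
      (D.c1 x.length (Nat.log 2 (x.length + 1) + 1))
      (fun σ' => ∃ N b, x.length ≤ N ∧ D.Res N D.s0 (labUp (fun i => x.getD i 0) x.length) b ∧
        σ'.reg 0 = if b then 1 else 0) := by
  have hSp := D.S_pos
  have hRS : D.R = 2 * D.S := rfl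
  set n := x.length with hn
  set K := Nat.log 2 (n + 1) + 1 with hK
  set σ₀ : St := ⟨fun i => if i = 0 then n else 0, fun i => x.getD i 0⟩ with hσ₀
  have h2W : 2 * (2 * (2 * n + 1)) ≤ D.R * (2 * (2 * n + 1)) := Nat.mul_le_mul_right _ (by omega)
  have hR1W : D.R * 1 ≤ D.R * (2 * (2 * n + 1)) := Nat.mul_le_mul_left _ (by omega)
  unfold Tab.prog
  refine Run.seq (T₁ := 3) (T₂ := (n * 14 + 6) + D.c2 n (2 * n + 1) K)
    (Term.run (Term.assign ?_ ?_) trivial) le_rfl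
  · show 1 ≤ W; omega
  have e1 : (Expr.lit 1).eval σ₀ = 1 := rfl
  rw [e1]
  refine Run.seq (T₁ := n * 14 + 6) (T₂ := D.c2 n (2 * n + 1) K)
    ((ph1Loop_run (n := n) (by omega) (by simp [hσ₀]) (by simp)).mono le_rfl ?_) le_rfl
  rintro σ₁ ⟨k, r1, hnk, hk2, hreg₁, hmem₁⟩
  have r0 : σ₁.reg 0 = n := by rw [hreg₁ 0 (by omega)]; simp [hσ₀]
  obtain ⟨N, hN⟩ : ∃ N, N = 2 ^ k := ⟨_, rfl⟩
  rw [← hN] at r1 hnk
  have hN0 : 1 ≤ N := by rw [hN]; exact Nat.one_le_two_pow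
  have hNle : N ≤ 2 * n + 1 := by
    rcases hk2 with h | h
    · omega
    · rw [hN, h]; simp
  have hkK : k ≤ K := by
    rcases hk2 with h | h
    · rcases k with _ | k
      · omega
      · have : 2 ^ k ≤ n + 1 := by rw [pow_succ] at h; omega
        have := Nat.le_log_of_pow_le (by omega) this
        omega
    · omega
  have hW' : n + D.R * (2 * N) ≤ W := by
    have : D.R * (2 * N) ≤ D.R * (2 * (2 * n + 1)) := Nat.mul_le_mul_left _ (by omega)
    omega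
  have hc2 : 3 + ((2 * N * (10 + D.ph2Body.cost) + 9) + D.c3 n k) ≤ D.c2 n (2 * n + 1) K := by
    unfold Tab.c2
    have h1 := D.c3_mono (n := n) hkK
    have h2 : 2 * N * (10 + D.ph2Body.cost) ≤ 2 * (2 * n + 1) * (10 + D.ph2Body.cost) :=
      Nat.mul_le_mul_right _ (by omega)
    omega
  refine Run.seq (T₁ := 3) (T₂ := (2 * N * (10 + D.ph2Body.cost) + 9) + D.c3 n k)
    (Term.run (Term.assign ?_ ?_) trivial) hc2
  · show 1 ≤ W; omega
  have e2 : (Expr.lit 1).eval σ₁ = 1 := rfl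
  rw [e2]
  refine Run.seq (T₁ := 2 * N * (10 + D.ph2Body.cost) + 9) (T₂ := D.c3 n k)
    ((D.ph2Loop_run (n := n) (N := N) hW' hN0 (by simpa using r0) (by simpa using r1) (by simp)
      ?_).mono le_rfl ?_) le_rfl
  · intro a ha
    simp only [St.set_mem, hmem₁, hσ₀]
    rw [List.getD_eq_getElem?_getD, List.getElem?_eq_none (by omega)]
    rfl
  rintro σ₂ ⟨hreg₂, hlow₂, hOK₂⟩
  have s0 : σ₂.reg 0 = n := by rw [hreg₂ 0 (by omega)]; simpa using r0
  have s1 : σ₂.reg 1 = N := by rw [hreg₂ 1 (by omega)]; simpa using r1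
  have hm₂ : ∀ a < n, σ₂.mem a = x.getD a 0 := by
    intro a ha; rw [hlow₂ a ha]; simp only [St.set_mem, hmem₁, hσ₀]
  refine Run.seq (T₁ := 3) (T₂ := (n * (7 + D.insCost k) + 6) + D.c4 n k)
    (Term.run (Term.assign (Nat.zero_le _) ?_) trivial) le_rfl
  have e3 : (Expr.lit 0).eval σ₂ = 0 := rfl
  rw [e3]
  refine Run.seq (T₁ := n * (7 + D.insCost k) + 6) (T₂ := D.c4 n k)
    ((D.ph3Loop_run (n := n) (N := N) (k := k) (σ := σ₂.set 2 0) hW' hN hnk hLW (by simpa using s0)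
      (by simpa using s1) (by simp) ?_ hOK₂).mono le_rfl ?_) le_rfl
  · intro a ha
    simp only [St.set_mem]
    rw [hm₂ a ha, List.getD_eq_getElem?_getD, List.getElem?_eq_getElem (by omega)]
    exact hx _ (List.getElem_mem _)
  rintro σ₃ ⟨t0, t1, hlow₃, hOK₃⟩
  have hlabeq : labUp (σ₂.set 2 0).mem n = labUp (fun i => x.getD i 0) n := by
    funext i
    simp only [labUp, St.set_mem]
    split_ifs with h
    · rw [hm₂ i h]
    · rfl
  rw [hlabeq] at hOK₃
  refine Run.seq (T₁ := 3) (T₂ := 3 + (((n + 1) * (4 + D.mainCost k) + 3) + 4))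
    (Term.run (Term.assign ?_ ?_) trivial) le_rfl
  · show D.s0 ≤ W
    have := D.s0_lt
    omega
  have e4 : (Expr.lit D.s0).eval σ₃ = D.s0 := rfl
  rw [e4]
  refine Run.seq (T₁ := 3) (T₂ := ((n + 1) * (4 + D.mainCost k) + 3) + 4)
    (Term.run (Term.assign ?_ ?_) trivial) le_rfl
  · show 1 ≤ W; omega
  have e5 : (Expr.lit 1).eval (σ₃.set 7 D.s0) = 1 := rfl
  rw [e5]
  refine Run.seq (T₁ := (n + 1) * (4 + D.mainCost k) + 3) (T₂ := 4)
    ((D.mainLoop_run (n := n) (N := N) (k := k) (lab := labUp (fun i => x.getD i 0) n) hW' hN hLW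
      (by simpa using t0) (by simpa using t1) (by simp) (by simp) (by simpa using hOK₃)
      ?_).mono le_rfl ?_) le_rfl
  · intro j c hj
    simp only [labUp] at hj
    split_ifs at hj with h
    have hc : x.getD j 0 = c := by simpa using hj
    refine ⟨h, ?_, ?_⟩
    · simp only [St.set_mem]
      rw [hlow₃ j h]; simp only [St.set_mem]; rw [hm₂ j h]; exact hc
    · rw [← hc, List.getD_eq_getElem?_getD, List.getElem?_eq_getElem (by omega)]
      exact hx _ (List.getElem_mem _)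
  · rintro σ₄ ⟨b, hb, h9⟩
    refine Term.run (Term.assign trivial ⟨N, b, hnk, hb, ?_⟩) trivial
    simp [Expr.eval, h9]

theorem Tab.prog_vars : D.prog.vars 11 := by
  have hc : ∀ i f : Expr, i.vars 11 → f.vars 11 → (cellE D.R i f).vars 11 :=
    fun i f hi hf => ⟨⟨by show 0 < 11; omega, trivial, hi⟩, hf⟩
  have v : ∀ r, r < 11 → (Expr.var r).vars 11 := fun r h => h
  have hset : ∀ t b, (D.setLeaf t b).vars 11 := fun t b => iter_vars fun s =>
    ⟨⟨hc _ _ ⟨v 1 (by omega), v 2 (by omega)⟩ trivial, trivial⟩,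
      hc _ _ ⟨v 1 (by omega), v 2 (by omega)⟩ trivial, by
        split_ifs
        · exact ⟨v 2 (by omega), trivial⟩
        · trivial⟩
  have hdbl : dbl.vars 11 := ⟨v 4 (by omega), v 4 (by omega)⟩
  have hdbl1 : dbl1.vars 11 := ⟨hdbl, trivial⟩
  have hpull : D.pull.vars 11 := iter_vars fun s =>
    ⟨⟨by omega, hc _ _ hdbl trivial⟩, ⟨hc _ _ (v 4 (by omega)) trivial,
      hc _ _ hdbl1 (v 5 (by omega))⟩, ⟨by omega, hc _ _ hdbl1 ⟨trivial, v 5 (by omega)⟩⟩,
      v 6 (by omega), ⟨hc _ _ (v 4 (by omega)) trivial, v 6 (by omega)⟩,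
      hc _ _ (v 4 (by omega)) trivial, hc _ _ hdbl trivial⟩
  have hprop : D.prop.vars 11 := ⟨v 4 (by omega), hpull, by omega, v 4 (by omega), trivial⟩
  have hrep : D.repair.vars 11 :=
    ⟨⟨by omega, ⟨v 1 (by omega), v 2 (by omega)⟩, trivial⟩, hprop⟩
  have hins : D.ins.vars 11 :=
    ⟨⟨by omega, v 2 (by omega)⟩, sw_vars (v 3 (by omega)) fun _ => hset _ _, hrep,
      by omega, v 2 (by omega), trivial⟩
  have hgo : D.mGo.vars 11 :=
    ⟨⟨by omega, v 6 (by omega), trivial⟩,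
      sw_vars (v 7 (by omega)) fun _ => sw_vars (v 3 (by omega)) fun _ => ⟨by omega, trivial⟩,
      v 10 (by omega),
      ⟨⟨by omega, v 10 (by omega), trivial⟩, ⟨by omega, v 6 (by omega), trivial⟩, hset _ _, hrep⟩,
      ⟨by omega, trivial⟩, by omega, trivial⟩
  have hmain : D.mainBody.vars 11 :=
    ⟨⟨by omega, hc _ _ trivial (v 7 (by omega))⟩,
      ⟨by omega, hc _ _ trivial ⟨trivial, v 7 (by omega)⟩⟩,
      ⟨⟨v 5 (by omega), v 7 (by omega)⟩, v 7 (by omega), v 5 (by omega)⟩, hgo,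
      sw_vars (v 7 (by omega)) fun _ => ⟨by omega, trivial⟩, by omega, trivial⟩
  exact ⟨⟨by omega, trivial⟩,
    ⟨⟨v 0 (by omega), v 1 (by omega)⟩, by omega, v 1 (by omega), v 1 (by omega)⟩,
    ⟨by omega, trivial⟩,
    ⟨⟨⟨v 1 (by omega), v 1 (by omega)⟩, v 2 (by omega)⟩,
      iter_vars fun _ => ⟨hc _ _ (v 2 (by omega)) trivial, trivial⟩, by omega, v 2 (by omega),
      trivial⟩,
    ⟨by omega, trivial⟩, ⟨⟨v 0 (by omega), v 2 (by omega)⟩, hins⟩, ⟨by omega, trivial⟩,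
    ⟨by omega, trivial⟩, ⟨v 8 (by omega), hmain⟩, by omega, v 9 (by omega)⟩

theorem Tab.insCost_le : ∃ a, ∀ K, 1 ≤ K → D.insCost K ≤ a * K := by
  refine ⟨23 + D.insSw.cost + (4 + D.propBody), fun K hK => ?_⟩
  unfold Tab.insCost Tab.repairCost
  have h1 : (23 + D.insSw.cost) * 1 ≤ (23 + D.insSw.cost) * K := Nat.mul_le_mul_left _ hK
  have h2 : (23 + D.insSw.cost + (4 + D.propBody)) * K =
    (23 + D.insSw.cost) * K + K * (4 + D.propBody) := by ring
  omega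

theorem Tab.mainCost_le : ∃ a, ∀ K, 1 ≤ K → D.mainCost K ≤ a * K := by
  obtain ⟨c, hc⟩ : ∃ c, c = D.mainCost 0 := ⟨_, rfl⟩
  refine ⟨c + (4 + D.propBody), fun K hK => ?_⟩
  have h1 : c * 1 ≤ c * K := Nat.mul_le_mul_left _ hK
  have h2 : (c + (4 + D.propBody)) * K = c * K + K * (4 + D.propBody) := by ring
  have h3 : D.mainCost K = c + K * (4 + D.propBody) := by
    rw [hc]
    unfold Tab.mainCost Tab.goCost Tab.delCost Tab.repairCost
    simp only [Nat.zero_mul]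
    omega
  omega

theorem Tab.cost_bound : ∃ C, ∀ n, D.c1 n (Nat.log 2 (n + 1) + 1) ≤
    C * ((n + 1) * (Nat.log 2 (n + 1) + 1)) := by
  obtain ⟨a, ha⟩ := D.insCost_le
  obtain ⟨b, hb⟩ := D.mainCost_le
  refine ⟨60 + 4 * (10 + D.ph2Body.cost) + (7 + a) + (4 + b), fun n => ?_⟩
  set K := Nat.log 2 (n + 1) + 1 with hK
  have hK1 : 1 ≤ K := by omega
  have ha := ha K hK1
  have hb := hb K hK1
  unfold Tab.c1 Tab.c2 Tab.c3 Tab.c4
  have hX : n + 1 ≤ (n + 1) * K := Nat.le_mul_of_pos_right _ hK1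
  have e1 : 2 * (2 * n + 1) * (10 + D.ph2Body.cost) ≤
      4 * (10 + D.ph2Body.cost) * ((n + 1) * K) := by
    calc 2 * (2 * n + 1) * (10 + D.ph2Body.cost)
        ≤ (4 * (n + 1)) * (10 + D.ph2Body.cost) := Nat.mul_le_mul_right _ (by omega)
      _ = 4 * (10 + D.ph2Body.cost) * (n + 1) := by ring
      _ ≤ _ := Nat.mul_le_mul_left _ hX
  have e2 : n * (7 + D.insCost K) ≤ (7 + a) * ((n + 1) * K) := by
    calc n * (7 + D.insCost K) ≤ (n + 1) * (7 * K + a * K) :=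
          Nat.mul_le_mul (by omega) (by omega)
      _ = _ := by ring
  have e3 : (n + 1) * (4 + D.mainCost K) ≤ (4 + b) * ((n + 1) * K) := by
    calc (n + 1) * (4 + D.mainCost K) ≤ (n + 1) * (4 * K + b * K) :=
          Nat.mul_le_mul_left _ (by omega)
      _ = _ := by ring
  have e4 : (60 + 4 * (10 + D.ph2Body.cost) + (7 + a) + (4 + b)) * ((n + 1) * K) =
      60 * ((n + 1) * K) + 4 * (10 + D.ph2Body.cost) * ((n + 1) * K) + (7 + a) * ((n + 1) * K) +
        (4 + b) * ((n + 1) * K) := by ring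
  omega

/-- The flat program for the abstract computation. -/
theorem Tab.machine : ∃ (P : List Instr) (C : ℕ), ∀ x : List ℕ, (∀ a ∈ x, a < D.L) →
    ∃ s' N b, HaltsWithin P (initial x)
      (C * ((x.length + 1) * (Nat.log 2 (x.length + 1) + 1))) (C * (x.length + 1)) s' ∧
      x.length ≤ N ∧ D.Res N D.s0 (labUp (fun i => x.getD i 0) x.length) b ∧
      s'.reg 0 = if b then 1 else 0 := by
  obtain ⟨C₁, hC₁⟩ := D.cost_bound
  refine ⟨compC 11 0 D.prog, C₁ + (1 + 4 * D.R + D.L), fun x hx => ?_⟩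
  set n := x.length with hn
  have hW : n + D.R * (2 * (2 * n + 1)) ≤ (C₁ + (1 + 4 * D.R + D.L)) * (n + 1) := by
    have h1 : D.R * (2 * (2 * n + 1)) ≤ D.R * (4 * (n + 1)) := Nat.mul_le_mul_left _ (by omega)
    have h2 : (C₁ + (1 + 4 * D.R + D.L)) * (n + 1) =
      C₁ * (n + 1) + (n + 1) + D.R * (4 * (n + 1)) + D.L * (n + 1) := by ring
    omega
  have hLW : D.L ≤ (C₁ + (1 + 4 * D.R + D.L)) * (n + 1) := by
    have h2 : (C₁ + (1 + 4 * D.R + D.L)) * (n + 1) =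
      C₁ * (n + 1) + (n + 1) + D.R * (4 * (n + 1)) + D.L * (n + 1) := by ring
    have : D.L ≤ D.L * (n + 1) := Nat.le_mul_of_pos_right _ (by omega)
    omega
  have hrun := D.prog_run x hx hW hLW
  have hrun' := Run.mono (T' := (C₁ + (1 + 4 * D.R + D.L)) *
    ((n + 1) * (Nat.log 2 (n + 1) + 1))) hrun ((hC₁ n).trans (Nat.mul_le_mul_right _ (by omega)))
    (fun _ h => h)
  obtain ⟨s', σ', h1, h2, _, N, b, h3, h4, h5⟩ := hrun'.halts (K := 11) (by omega)
    D.prog_vars (by omega) (fun a ha => by have := hx a ha; omega)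
  exact ⟨s', N, b, h1, h3, h4, h2.trans h5⟩

end Pool.Agent.Lib.MP_cf558f_lc
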