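import Pool.Agent.Lib.MP_cf558f_lc.Tree

namespace Pool.Agent.Lib.MP_cf558f_lc

open Pool.Agent.Lib.Ram

variable (D : Tab)

def cellE (R : ℕ) (i f : Expr) : Expr := .add (.add (.var 0) (.mul (.lit R) i)) f

theorem cellE_ok {W R : ℕ} {σ : St} {i f : Expr} (hi : i.ok W σ) (hf : f.ok W σ) (hR : R ≤ W)
    (h : σ.reg 0 + R * i.eval σ + f.eval σ ≤ W) : (cellE R i f).ok W σ := by
  refine ⟨⟨trivial, ⟨hR, hi, ?_⟩, ?_⟩, hf, h⟩
  · show R * i.eval σ ≤ W; omega
  · show σ.reg 0 + R * i.eval σ ≤ W; omega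

theorem cellE_eval {R : ℕ} {σ : St} {i f : Expr} :
    (cellE R i f).eval σ = σ.reg 0 + R * i.eval σ + f.eval σ := rfl

theorem cell_le {R n N W i f : ℕ} (h : n + R * (2 * N) ≤ W) (hi : i < 2 * N) (hf : f < R) :
    n + R * i + f ≤ W := by
  have : R * (i + 1) ≤ R * (2 * N) := Nat.mul_le_mul_left _ (by omega)
  rw [Nat.mul_add, Nat.mul_one] at this
  omega

def dbl : Expr := .add (.var 4) (.var 4)
def dbl1 : Expr := .add (.add (.var 4) (.var 4)) (.lit 1)

def Tab.pull1 (s : ℕ) : Cmd :=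
  .seq (.assign 5 (.load (cellE D.R dbl (.lit s))))
  (.seq (.store (cellE D.R (.var 4) (.lit s)) (.load (cellE D.R dbl1 (.var 5))))
  (.seq (.assign 6 (.load (cellE D.R dbl1 (.add (.lit D.S) (.var 5)))))
  (.ite (.var 6) (.store (cellE D.R (.var 4) (.lit (D.S + s))) (.var 6))
    (.store (cellE D.R (.var 4) (.lit (D.S + s))) (.load (cellE D.R dbl (.lit (D.S + s))))))))

def Tab.pull : Cmd := iter D.S D.pull1

theorem Tab.pull_loopFree : D.pull.loopFree :=
  iter_loopFree fun _ => ⟨trivial, trivial, trivial, trivial, trivial⟩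

/-- Frame condition: only the record `j` may differ. -/
def Tab.Fr (m m' : ℕ → ℕ) (n j : ℕ) : Prop :=
  ∀ a, (∀ f < D.R, a ≠ n + D.R * j + f) → m' a = m a

theorem Tab.Fr.rc {D : Tab} {m m' : ℕ → ℕ} {n j i f : ℕ} (h : D.Fr m m' n j) (hij : i ≠ j)
    (hf : f < D.R) : D.rc m' n i f = D.rc m n i f :=
  h _ fun _ hg he => hij (D.rc_inj hf hg he).1

theorem Tab.Fr.low {D : Tab} {m m' : ℕ → ℕ} {n j a : ℕ} (h : D.Fr m m' n j) (ha : a < n) :
    m' a = m a := h _ fun _ _ => by omega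

theorem Tab.pull_term {W n N j : ℕ} {σ : St} {lab : ℕ → Option ℕ} {ex : ℕ}
    (hW : n + D.R * (2 * N) ≤ W) (hR : D.R ≤ W) (hn : σ.reg 0 = n) (hj : σ.reg 4 = j)
    (hj1 : 1 ≤ j) (hjN : j < N) (hOK : D.OK σ.mem n N lab ex) :
    Term W D.pull σ (fun σ' => (∀ r, r ≠ 5 → r ≠ 6 → σ'.reg r = σ.reg r) ∧
      D.Fr σ.mem σ'.mem n j ∧ (∀ s < D.S, D.rc σ'.mem n j s = D.nT σ.mem n j s) ∧
      ∀ s < D.S, D.rc σ'.mem n j (D.S + s) = D.nP σ.mem n j s) := by
  have hRS : D.R = 2 * D.S := rfl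
  have hSp := D.S_pos
  refine Term.iter (fun k σ' => (∀ r, r ≠ 5 → r ≠ 6 → σ'.reg r = σ.reg r) ∧
      D.Fr σ.mem σ'.mem n j ∧ (∀ s < k, D.rc σ'.mem n j s = D.nT σ.mem n j s) ∧
      ∀ s < k, D.rc σ'.mem n j (D.S + s) = D.nP σ.mem n j s) ?_ ?_
  · exact ⟨fun _ _ _ => rfl, fun _ _ => rfl, fun _ h => by omega, fun _ h => by omega⟩
  · rintro s hs σ₁ ⟨hreg, hfr, hTs, hPs⟩
    have r0 : σ₁.reg 0 = n := (hreg 0 (by omega) (by omega)).trans hn
    have r4 : σ₁.reg 4 = j := (hreg 4 (by omega) (by omega)).trans hj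
    have hjW : j + j + 1 ≤ W := by
      have := cell_le hW (show j + j + 1 < 2 * N by omega) (show 0 < D.R by omega)
      have h2 : 1 * (j + j + 1) ≤ D.R * (j + j + 1) := Nat.mul_le_mul_right _ (by omega)
      omega
    have c1 : ∀ f < D.R, n + D.R * (j + j) + f ≤ W := fun f hf => cell_le hW (by omega) hf
    have c2 : ∀ f < D.R, n + D.R * (j + j + 1) + f ≤ W := fun f hf => cell_le hW (by omega) hf
    have c0 : ∀ f < D.R, n + D.R * j + f ≤ W := fun f hf => cell_le hW (by omega) hf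
    set x := D.rc σ.mem n (2 * j) s with hx
    have hxlt : x < D.S := hOK.lt _ (by omega) (by omega) _ hs
    have e2j : n + D.R * (j + j) + s = n + D.R * (2 * j) + s := by ring
    have hx1 : σ₁.mem (n + D.R * (j + j) + s) = x := by
      rw [e2j]; exact hfr.rc (i := 2 * j) (by omega) (by omega)
    have hT1 : ∀ f < D.R, σ₁.mem (n + D.R * (j + j + 1) + f) = D.rc σ.mem n (2 * j + 1) f := by
      intro f hf
      have : n + D.R * (j + j + 1) + f = n + D.R * (2 * j + 1) + f := by ring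
      rw [this]; exact hfr.rc (i := 2 * j + 1) (by omega) hf
    have hne1 : ∀ f < D.R, ∀ g < D.R, n + D.R * (j + j + 1) + f ≠ n + D.R * j + g := by
      intro f hf g hg he
      have := (D.rc_inj hf hg he).1
      omega
    have hne0 : ∀ f < D.R, ∀ g < D.R, n + D.R * (j + j) + f ≠ n + D.R * j + g := by
      intro f hf g hg he
      have := (D.rc_inj hf hg he).1
      omega
    refine Term.seq (Term.assign ?_ ?_)
    · refine cellE_ok (i := dbl) (f := .lit s) ⟨trivial, trivial, ?_⟩ ?_ hR ?_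
      · simp only [Expr.eval, r4]; omega
      · show s ≤ W; have := c1 s (by omega); omega
      · simp only [dbl, Expr.eval, r0, r4]; exact c1 s (by omega)
    have ev1 : (Expr.load (cellE D.R dbl (.lit s))).eval σ₁ = x := by
      simp only [Expr.eval, cellE, dbl, r0, r4]; exact hx1
    rw [ev1]
    refine Term.seq (Term.store ?_ ?_ ?_)
    · refine cellE_ok (i := .var 4) (f := .lit s) trivial ?_ hR ?_
      · show s ≤ W; have := c1 s (by omega); omega
      · simp [Expr.eval, r0, r4]; exact c0 s (by omega)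
    · refine cellE_ok (i := dbl1) (f := .var 5) ⟨⟨trivial, trivial, ?_⟩, ?_, ?_⟩ trivial hR ?_
      · simp [Expr.eval, r4]; omega
      · show 1 ≤ W; omega
      · simp [Expr.eval, r4]; omega
      · simp [Expr.eval, dbl1, r0, r4]; exact c2 x (by omega)
    have ev2 : (Expr.load (cellE D.R dbl1 (.var 5))).eval (σ₁.set 5 x) =
        D.rc σ.mem n (2 * j + 1) x := by
      simp [Expr.eval, cellE, dbl1, r0, r4]; exact hT1 x (by omega)
    have ev2a : (cellE D.R (.var 4) (.lit s)).eval (σ₁.set 5 x) = n + D.R * j + s := by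
      simp [Expr.eval, cellE, r0, r4]
    rw [ev2, ev2a]
    refine Term.seq (Term.assign ?_ ?_)
    · refine cellE_ok (i := dbl1) (f := .add (.lit D.S) (.var 5)) ⟨⟨trivial, trivial, ?_⟩, ?_, ?_⟩
        ⟨?_, trivial, ?_⟩ hR ?_
      · simp [Expr.eval, r4]; omega
      · show 1 ≤ W; omega
      · simp [Expr.eval, r4]; omega
      · show D.S ≤ W; omega
      · simp [Expr.eval]; omega
      · simp [Expr.eval, dbl1, r0, r4]; exact c2 (D.S + x) (by omega)
    set σ₂ := (σ₁.set 5 x).put (n + D.R * j + s) (D.rc σ.mem n (2 * j + 1) x) with hσ₂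
    have ev3 : (Expr.load (cellE D.R dbl1 (.add (.lit D.S) (.var 5)))).eval σ₂ =
        D.rc σ.mem n (2 * j + 1) (D.S + x) := by
      simp [hσ₂, Expr.eval, cellE, dbl1, r0, r4]
      rw [if_neg (hne1 _ (by omega) _ (by omega))]
      exact hT1 _ (by omega)
    rw [ev3]
    set y := D.rc σ.mem n (2 * j + 1) (D.S + x) with hy
    -- common ending
    have fin : ∀ v, v = D.nP σ.mem n j s →
        (∀ r, r ≠ 5 → r ≠ 6 → ((σ₂.set 6 y).put (n + D.R * j + (D.S + s)) v).reg r = σ.reg r) ∧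
        D.Fr σ.mem ((σ₂.set 6 y).put (n + D.R * j + (D.S + s)) v).mem n j ∧
        (∀ s' < s + 1, D.rc ((σ₂.set 6 y).put (n + D.R * j + (D.S + s)) v).mem n j s' =
          D.nT σ.mem n j s') ∧
        ∀ s' < s + 1, D.rc ((σ₂.set 6 y).put (n + D.R * j + (D.S + s)) v).mem n j (D.S + s') =
          D.nP σ.mem n j s' := by
      intro v hv
      refine ⟨?_, ?_, ?_, ?_⟩
      · intro r h5 h6
        simp [hσ₂, h5, h6]
        exact hreg r h5 h6
      · intro a ha
        simp only [St.put_mem, St.set_mem, hσ₂]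
        rw [if_neg (ha _ (by omega)), if_neg (ha _ (by omega))]
        exact hfr a ha
      · intro s' hs'
        simp only [Tab.rc, St.put_mem, St.set_mem, hσ₂]
        rw [if_neg (by omega)]
        by_cases hss : s' = s
        · subst hss; rw [if_pos rfl]; rfl
        · rw [if_neg (by omega)]; exact hTs s' (by omega)
      · intro s' hs'
        simp only [Tab.rc, St.put_mem, St.set_mem, hσ₂]
        by_cases hss : s' = s
        · subst hss; rw [if_pos rfl]; exact hv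
        · rw [if_neg (by omega), if_neg (by omega)]; exact hPs s' (by omega)
    have ea : (cellE D.R (.var 4) (.lit (D.S + s))).eval (σ₂.set 6 y) =
        n + D.R * j + (D.S + s) := by
      simp [hσ₂, Expr.eval, cellE, r0, r4]
    have oka : (cellE D.R (.var 4) (.lit (D.S + s))).ok W (σ₂.set 6 y) := by
      refine cellE_ok (i := .var 4) (f := .lit (D.S + s)) trivial ?_ hR ?_
      · show D.S + s ≤ W; omega
      · simp [hσ₂, Expr.eval, r0, r4]; exact c0 (D.S + s) (by omega)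
    refine Term.ite trivial (fun h6 => Term.store oka trivial ?_)
      (fun h6 => Term.store oka ?_ ?_)
    · rw [ea]
      have h6' : y ≠ 0 := by simpa [Expr.eval] using h6
      have : (Expr.var 6).eval (σ₂.set 6 y) = y := by simp [Expr.eval]
      rw [this]
      refine fin y ?_
      show y = D.nP σ.mem n j s
      unfold Tab.nP
      rw [if_pos h6']
    · refine cellE_ok (i := dbl) (f := .lit (D.S + s)) ⟨trivial, trivial, ?_⟩ ?_ hR ?_
      · simp [hσ₂, Expr.eval, r4]; omega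
      · show D.S + s ≤ W; omega
      · simp [hσ₂, dbl, Expr.eval, r0, r4]; exact c1 (D.S + s) (by omega)
    · rw [ea]
      have h6' : y = 0 := by simpa [Expr.eval] using h6
      have : (Expr.load (cellE D.R dbl (.lit (D.S + s)))).eval (σ₂.set 6 y) =
          D.rc σ.mem n (2 * j) (D.S + s) := by
        simp [hσ₂, Expr.eval, cellE, dbl, r0, r4]
        rw [if_neg (hne0 _ (by omega) _ (by omega))]
        have e : n + D.R * (j + j) + (D.S + s) = n + D.R * (2 * j) + (D.S + s) := by ring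
        rw [e]; exact hfr.rc (i := 2 * j) (by omega) (by omega)
      rw [this]
      refine fin _ ?_
      unfold Tab.nP
      rw [if_neg (by rw [← hx, ← hy]; simpa using h6')]

/-- Recompute all ancestors: register `4` holds the current node. -/
def Tab.prop : Cmd := .loop (.var 4) (.seq D.pull (.assign 4 (.div (.var 4) (.lit 2))))

def Tab.propBody : ℕ := D.pull.cost + 6

theorem Tab.prop_run {W n N k : ℕ} {σ : St} {lab : ℕ → Option ℕ}
    (hW : n + D.R * (2 * N) ≤ W) (hR : D.R ≤ W) (h2 : 2 ≤ W) (hn : σ.reg 0 = n)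
    (hk : σ.reg 4 < 2 ^ k) (hN : N = 2 ^ k) (hOK : D.OK σ.mem n N lab (σ.reg 4)) :
    Run W D.prop σ (k * (4 + D.propBody) + 3) (fun σ' =>
      (∀ r, r ≠ 4 → r ≠ 5 → r ≠ 6 → σ'.reg r = σ.reg r) ∧ (∀ a < n, σ'.mem a = σ.mem a) ∧
      D.OK σ'.mem n N lab 0) := by
  refine (Run.loop (fun i σ' => (∀ r, r ≠ 4 → r ≠ 5 → r ≠ 6 → σ'.reg r = σ.reg r) ∧
    (∀ a < n, σ'.mem a = σ.mem a) ∧ σ'.reg 4 < 2 ^ i ∧ σ'.reg 4 < N ∧
    D.OK σ'.mem n N lab (σ'.reg 4)) (D.pull.cost + 6) k ?_ ?_ ?_).mono ?_ ?_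
  · exact ⟨fun _ _ _ _ => rfl, fun _ _ => rfl, hk, by omega, hOK⟩
  · intro _ _ _; trivial
  · rintro i σ₁ ⟨hreg, hlow, hi, hiN, hOK₁⟩ hne
    have hne : σ₁.reg 4 ≠ 0 := hne
    rcases i with _ | i
    · simp at hi; exact absurd hi hne
    refine ⟨i, rfl, ?_⟩
    have r0 : σ₁.reg 0 = n := (hreg 0 (by omega) (by omega) (by omega)).trans hn
    refine Run.seq (T₂ := 6) (((D.pull_term hW hR r0 rfl (by omega) hiN hOK₁).run
      D.pull_loopFree).mono le_rfl ?_) le_rfl
    rintro σ₂ ⟨hreg₂, hfr, hT, hP⟩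
    refine (Term.run (Term.assign (Q := fun σ' => _) ⟨trivial, h2⟩ ?_) trivial)
    have r4 : σ₂.reg 4 = σ₁.reg 4 := hreg₂ 4 (by omega) (by omega)
    have ev : (Expr.div (.var 4) (.lit 2)).eval σ₂ = σ₁.reg 4 / 2 := by
      simp [Expr.eval, r4]
    rw [ev]
    refine ⟨?_, ?_, ?_, ?_, ?_⟩
    · intro r h4 h5 h6
      simp [h4]
      rw [hreg₂ r h5 h6, hreg r h4 h5 h6]
    · intro a ha
      simp only [St.set_mem]
      rw [hfr.low ha, hlow a ha]
    · simp only [St.set_reg, if_true]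
      rw [pow_succ] at hi
      omega
    · simp only [St.set_reg, if_true]
      omega
    · simp only [St.set_reg, if_true, St.set_mem]
      exact hOK₁.pull (by omega) hiN hT hP (fun i hij f hf => hfr.rc hij hf)
  · show k * (2 + 2 + (D.pull.cost + 6)) + (2 + 1) ≤ _
    unfold Tab.propBody
    have : 2 + 2 + (D.pull.cost + 6) = 4 + (D.pull.cost + 6) := by omega
    rw [this]
  · rintro σ' ⟨h0, _, hreg, hlow, _, _, hOK'⟩
    have h0 : σ'.reg 4 = 0 := h0
    rw [h0] at hOK'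
    exact ⟨hreg, hlow, hOK'⟩

/-- Write the leaf whose position is in register `2`. -/
def Tab.leaf1 (t : ℕ → ℕ) (b : ℕ → Bool) (s : ℕ) : Cmd :=
  .seq (.store (cellE D.R (.add (.var 1) (.var 2)) (.lit s)) (.lit (t s)))
    (.store (cellE D.R (.add (.var 1) (.var 2)) (.lit (D.S + s)))
      (if b s then .add (.var 2) (.lit 1) else .lit 0))

def Tab.setLeaf (t : ℕ → ℕ) (b : ℕ → Bool) : Cmd := iter D.S (D.leaf1 t b)

theorem Tab.setLeaf_loopFree (t : ℕ → ℕ) (b : ℕ → Bool) : (D.setLeaf t b).loopFree :=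
  iter_loopFree fun _ => ⟨trivial, trivial⟩

theorem Tab.setLeaf_term {W n N p : ℕ} {σ : St} {t : ℕ → ℕ} {b : ℕ → Bool}
    (hW : n + D.R * (2 * N) ≤ W) (hR : D.R ≤ W) (hn : σ.reg 0 = n) (hN : σ.reg 1 = N)
    (hp : σ.reg 2 = p) (hpN : p < N) (ht : ∀ s < D.S, t s < D.S) :
    Term W (D.setLeaf t b) σ (fun σ' => (∀ r, σ'.reg r = σ.reg r) ∧
      D.Fr σ.mem σ'.mem n (N + p) ∧ (∀ s < D.S, D.rc σ'.mem n (N + p) s = t s) ∧
      ∀ s < D.S, D.rc σ'.mem n (N + p) (D.S + s) = if b s then p + 1 else 0) := by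
  have hRS : D.R = 2 * D.S := rfl
  have hSp := D.S_pos
  refine Term.iter (fun k σ' => (∀ r, σ'.reg r = σ.reg r) ∧
      D.Fr σ.mem σ'.mem n (N + p) ∧ (∀ s < k, D.rc σ'.mem n (N + p) s = t s) ∧
      ∀ s < k, D.rc σ'.mem n (N + p) (D.S + s) = if b s then p + 1 else 0) ?_ ?_
  · exact ⟨fun _ => rfl, fun _ _ => rfl, fun _ h => by omega, fun _ h => by omega⟩
  · rintro s hs σ₁ ⟨hreg, hfr, hTs, hPs⟩
    have r0 : σ₁.reg 0 = n := (hreg 0).trans hn
    have r1 : σ₁.reg 1 = N := (hreg 1).trans hN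
    have r2 : σ₁.reg 2 = p := (hreg 2).trans hp
    have c0 : ∀ f < D.R, n + D.R * (N + p) + f ≤ W := fun f hf => cell_le hW (by omega) hf
    have hNp : N + p + 1 ≤ W := by
      have := c0 0 (by omega)
      have h2 : 2 * (N + p) ≤ D.R * (N + p) := Nat.mul_le_mul_right _ (by omega)
      omega
    refine Term.seq (Term.store ?_ ?_ ?_)
    · refine cellE_ok (i := .add (.var 1) (.var 2)) (f := .lit s) ⟨trivial, trivial, ?_⟩ ?_ hR ?_
      · simp only [Expr.eval, r1, r2]; omega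
      · show s ≤ W; omega
      · simp only [Expr.eval, r0, r1, r2]; exact c0 s (by omega)
    · show t s ≤ W; have := ht s hs; omega
    have ev1 : (cellE D.R (.add (.var 1) (.var 2)) (.lit s)).eval σ₁ = n + D.R * (N + p) + s := by
      simp only [Expr.eval, cellE, r0, r1, r2]
    have ev1' : (Expr.lit (t s)).eval σ₁ = t s := rfl
    rw [ev1, ev1']
    set σ₂ := σ₁.put (n + D.R * (N + p) + s) (t s) with hσ₂
    have ev2 : (cellE D.R (.add (.var 1) (.var 2)) (.lit (D.S + s))).eval σ₂ =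
        n + D.R * (N + p) + (D.S + s) := by
      simp only [hσ₂, St.put_reg, Expr.eval, cellE, r0, r1, r2]
    have ev3 : (if b s then Expr.add (.var 2) (.lit 1) else .lit 0 : Expr).eval σ₂ =
        if b s then p + 1 else 0 := by
      split_ifs
      · simp only [hσ₂, St.put_reg, Expr.eval, r2]
      · rfl
    refine Term.store ?_ ?_ ?_
    · refine cellE_ok (i := .add (.var 1) (.var 2)) (f := .lit (D.S + s))
        ⟨trivial, trivial, ?_⟩ ?_ hR ?_
      · simp only [hσ₂, St.put_reg, Expr.eval, r1, r2]; omega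
      · show D.S + s ≤ W; omega
      · simp only [hσ₂, St.put_reg, Expr.eval, r0, r1, r2]; exact c0 (D.S + s) (by omega)
    · split_ifs
      · refine ⟨trivial, ?_, ?_⟩
        · show 1 ≤ W; omega
        · simp only [hσ₂, St.put_reg, Expr.eval, r2]; omega
      · exact Nat.zero_le _
    rw [ev2, ev3]
    refine ⟨?_, ?_, ?_, ?_⟩
    · intro r; simp only [hσ₂, St.put_reg]; exact hreg r
    · intro a ha
      simp only [St.put_mem, hσ₂]
      rw [if_neg (ha _ (by omega)), if_neg (ha _ (by omega))]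
      exact hfr a ha
    · intro s' hs'
      simp only [Tab.rc, St.put_mem, hσ₂]
      rw [if_neg (by omega)]
      by_cases hss : s' = s
      · subst hss; rw [if_pos rfl]
      · rw [if_neg (by omega)]; exact hTs s' (by omega)
    · intro s' hs'
      simp only [Tab.rc, St.put_mem, hσ₂]
      by_cases hss : s' = s
      · subst hss; rw [if_pos rfl]
      · rw [if_neg (by omega), if_neg (by omega)]; exact hPs s' (by omega)

/-- After the leaf has been written: repair the ancestors. -/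
def Tab.repair : Cmd :=
  .seq (.assign 4 (.div (.add (.var 1) (.var 2)) (.lit 2))) D.prop

def Tab.repairCost (k : ℕ) : ℕ := 9 + (k * (4 + D.propBody) + 3)

theorem Tab.repair_run {W n N k p : ℕ} {σ : St} {lab : ℕ → Option ℕ}
    (hW : n + D.R * (2 * N) ≤ W) (hR : D.R ≤ W) (h2 : 2 ≤ W) (hn : σ.reg 0 = n)
    (h1 : σ.reg 1 = N) (hp : σ.reg 2 = p) (hpN : p < N) (hN : N = 2 ^ k)
    (hOK : D.OK σ.mem n N lab ((N + p) / 2)) :
    Run W D.repair σ (D.repairCost k) (fun σ' =>
      (∀ r, r ≠ 4 → r ≠ 5 → r ≠ 6 → σ'.reg r = σ.reg r) ∧ (∀ a < n, σ'.mem a = σ.mem a) ∧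
      D.OK σ'.mem n N lab 0) := by
  have hSp := D.S_pos
  have hRS : D.R = 2 * D.S := rfl
  have hNp : N + p + 1 ≤ W := by
    have := cell_le hW (show N + p < 2 * N by omega) (show 0 < D.R by omega)
    have h2 : 2 * (N + p) ≤ D.R * (N + p) := Nat.mul_le_mul_right _ (by omega)
    omega
  have hok : (Expr.div (.add (.var 1) (.var 2)) (.lit 2)).ok W σ := by
    refine ⟨⟨trivial, trivial, ?_⟩, h2⟩
    simp only [Expr.eval, h1, hp]; omega
  refine Run.seq (T₁ := 9) (T₂ := k * (4 + D.propBody) + 3)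
    (Term.run (Term.assign hok ?_) trivial) le_rfl
  have ev : (Expr.div (.add (.var 1) (.var 2)) (.lit 2)).eval σ = (N + p) / 2 := by
    simp only [Expr.eval, h1, hp]
  rw [ev]
  refine (D.prop_run (lab := lab) hW hR h2 (by simpa using hn) ?_ hN ?_).mono le_rfl ?_
  · simp only [St.set_reg, if_true]; omega
  · simp only [St.set_reg, if_true, St.set_mem]; exact hOK
  · rintro σ' ⟨hreg, hlow, hOK'⟩
    refine ⟨fun r h4 h5 h6 => ?_, hlow, hOK'⟩
    rw [hreg r h4 h5 h6]; simp [h4]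

end Pool.Agent.Lib.MP_cf558f_lc
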