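import Pool.Agent.Lib.MP_cf558f_lc.Defs
import Pool.Agent.Lib.MP_cf558f_lc.Main

namespace Pool.Agent.Lib.MP_cf558f_lc

open Pool.Agent.Lib.Ram

section star
variable {α : Type} {X : Set (List α)}

theorem star_nil : ([] : List α) ∈ star X := ⟨[], by simp, rfl⟩

theorem star_append {u v : List α} (hu : u ∈ star X) (hv : v ∈ star X) : u ++ v ∈ star X := by
  obtain ⟨l, hl, rfl⟩ := hu
  obtain ⟨m, hm, rfl⟩ := hv
  refine ⟨l ++ m, ?_, by simp⟩
  intro x hx
  rcases List.mem_append.mp hx with h | h
  · exact hl x h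
  · exact hm x h

theorem star_mem {u : List α} (hu : u ∈ X) : u ∈ star X := ⟨[u], by simpa using hu, by simp⟩

theorem star_head {u : List α} (hu : u ∈ star X) (hne : u ≠ []) :
    ∃ x ∈ X, ∃ v ∈ star X, u = x ++ v := by
  obtain ⟨l, hl, rfl⟩ := hu
  rcases l with _ | ⟨x, l⟩
  · simp at hne
  · exact ⟨x, hl x (by simp), l.flatten, ⟨l, fun y hy => hl y (by simp [hy]), rfl⟩, by simp⟩

theorem star_cancel (hX : ∀ x ∈ X, ∀ y ∈ X, x <+: y → x = y) {u w : List α} (hu : u ∈ star X)
    (huw : u ++ w ∈ star X) (hne : ∀ x ∈ X, x ≠ []) : w ∈ star X := by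
  obtain ⟨l, hl, rfl⟩ := hu
  induction l with
  | nil => simpa using huw
  | cons x l ih =>
    have hx := hl x (by simp)
    have hxne := hne x hx
    have hw : (x :: l).flatten ++ w ≠ [] := by simp [hxne]
    obtain ⟨y, hy, v, hv, e⟩ := star_head huw hw
    have h1 : x <+: y ++ v := by
      rw [← e]
      exact ⟨l.flatten ++ w, by simp⟩
    have h2 : y <+: y ++ v := List.prefix_append _ _
    have hxy : x = y := by
      rcases List.prefix_or_prefix_of_prefix h1 h2 with h | h
      · exact hX x hx y hy h
      · exact (hX y hy x hx h).symm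
    subst hxy
    have e' : l.flatten ++ w = v := by
      have : x ++ (l.flatten ++ w) = x ++ v := by rw [← e]; simp
      exact List.append_cancel_left this
    exact ih (fun z hz => hl z (by simp [hz])) (by rw [e']; exact hv)

end star

variable {Q α : Type} (A : DFAwtw Q α)

theorem DFAwtw.ne_nil {q : Q} {x : List α} (hx : x ∈ A.tau q) : x ≠ [] :=
  (A.code q ⟨x, hx⟩).1 x (Or.inl hx)

theorem DFAwtw.pre {q : Q} {x y : List α} (hx : x ∈ A.tau q) (hy : y ∈ A.tau q) (h : x <+: y) :
    x = y := (A.code q ⟨x, hx⟩).2 x (Or.inl hx) y (Or.inl hy) h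

theorem DFAwtw.letter {q p : Q} {a : α} {x v : List α} (ha : A.delta q a = some p)
    (hx : x ∈ A.tau q) (h : x <+: a :: v) : False := by
  have hne := A.ne_nil hx
  rcases x with _ | ⟨b, x⟩
  · exact hne rfl
  have hb : b = a := by
    obtain ⟨t, ht⟩ := h
    simp at ht
    exact ht.1
  subst hb
  have := (A.code q ⟨_, hx⟩).2 [b] (Or.inr ⟨b, p, ha, rfl⟩) (b :: x) (Or.inl hx) ⟨x, by simp⟩
  rw [← this] at hx
  exact A.disjoint q b p ha hx

/-- two factorisations of the same word -/
theorem DFAwtw.split_unique {q : Q} {u u' v v' : List α} {a a' : α}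
    (hu : u ∈ star (A.tau q)) (hu' : u' ∈ star (A.tau q))
    (hv : ¬ ∃ x ∈ A.tau q, x <+: a :: v) (hv' : ¬ ∃ x ∈ A.tau q, x <+: a' :: v')
    (h : u ++ a :: v = u' ++ a' :: v') : u = u' ∧ a = a' ∧ v = v' := by
  have key : ∀ (u u' v v' : List α) (a a' : α), u ∈ star (A.tau q) → u' ∈ star (A.tau q) →
      (¬ ∃ x ∈ A.tau q, x <+: a :: v) → u ++ a :: v = u' ++ a' :: v' → u.length < u'.length →
      False := by
    intro u u' v v' a a' hu hu' hv h hlt
    have hpre : u <+: u' := by
      have h1 : u <+: u' ++ a' :: v' := by rw [← h]; exact List.prefix_append _ _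
      have h2 : u' <+: u' ++ a' :: v' := List.prefix_append _ _
      exact List.prefix_of_prefix_length_le h1 h2 hlt.le
    obtain ⟨w, rfl⟩ := hpre
    have hw : w ∈ star (A.tau q) :=
      star_cancel (fun x hx y hy => A.pre hx hy) hu hu' fun x hx => A.ne_nil hx
    have hwne : w ≠ [] := by
      rintro rfl
      simp at hlt
    obtain ⟨x, hx, t, _, rfl⟩ := star_head hw hwne
    have e : a :: v = x ++ t ++ a' :: v' := by
      have : u ++ (a :: v) = u ++ (x ++ t ++ a' :: v') := by rw [h]; simp
      exact List.append_cancel_left this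
    exact hv ⟨x, hx, by rw [e, List.append_assoc]; exact List.prefix_append _ _⟩
  have hlen : u.length = u'.length := by
    rcases lt_trichotomy u.length u'.length with h1 | h1 | h1
    · exact (key u u' v v' a a' hu hu' hv h h1).elim
    · exact h1
    · exact (key u' u v' v a' a hu' hu hv' h.symm h1).elim
  obtain ⟨h1, h2⟩ := List.append_inj h hlen
  simp at h2
  exact ⟨h1, h2.1, h2.2⟩

theorem DFAwtw.not_star_of_stop {q : Q} {u v : List α} {a : α}
    (hu : u ∈ star (A.tau q)) (hv : ¬ ∃ x ∈ A.tau q, x <+: a :: v) :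
    u ++ a :: v ∉ star (A.tau q) := by
  intro h
  have hw : a :: v ∈ star (A.tau q) :=
    star_cancel (fun x hx y hy => A.pre hx hy) hu h fun x hx => A.ne_nil hx
  obtain ⟨x, hx, t, _, e⟩ := star_head hw (by simp)
  exact hv ⟨x, hx, by rw [e]; exact List.prefix_append _ _⟩

/-- no word readable at a readable letter -/
theorem DFAwtw.readable {q p : Q} {a : α} {v : List α} (ha : A.delta q a = some p) :
    ¬ ∃ x ∈ A.tau q, x <+: a :: v := fun ⟨_, hx, h⟩ => A.letter ha hx h

theorem DFAwtw.acc_end {q : Q} {w : List α} (hw : w ∈ star (A.tau q)) :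
    Relation.ReflTransGen (Step A) (.run q w) .accept ↔ q ∈ A.final := by
  constructor
  · intro h
    rcases Relation.ReflTransGen.cases_head h with h | ⟨c, hc, _⟩
    · cases h
    · cases hc with
      | read _ p u a v hu ha => exact (A.not_star_of_stop hu (A.readable ha) hw).elim
      | stuck _ u a v hu ha hv => exact (A.not_star_of_stop hu hv hw).elim
      | endAccept _ _ hw hq => exact hq
      | endReject _ _ hw hq => 
        rename_i h'
        rcases Relation.ReflTransGen.cases_head h' with h | ⟨c, hc, _⟩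
        · cases h
        · cases hc
  · intro hq
    exact Relation.ReflTransGen.single (.endAccept q w hw hq)

theorem DFAwtw.acc_stuck {q : Q} {u v : List α} {a : α} (hu : u ∈ star (A.tau q))
    (ha : A.delta q a = none) (hv : ¬ ∃ x ∈ A.tau q, x <+: a :: v) :
    ¬ Relation.ReflTransGen (Step A) (.run q (u ++ a :: v)) .accept := by
  intro h
  rcases Relation.ReflTransGen.cases_head h with h | ⟨c, hc, hc'⟩
  · cases h
  · generalize hw : u ++ a :: v = w at hc
    cases hc with
    | read _ p u' a' v' hu' ha' =>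
      obtain ⟨rfl, rfl, rfl⟩ := A.split_unique hu hu' hv (A.readable ha') hw
      rw [ha] at ha'; cases ha'
    | stuck _ u a v hu ha hv =>
      rcases Relation.ReflTransGen.cases_head hc' with h | ⟨c, hc, _⟩
      · cases h
      · cases hc
    | endAccept _ _ hw' hq => rw [← hw] at hw'; exact A.not_star_of_stop hu hv hw'
    | endReject _ _ hw' hq => rw [← hw] at hw'; exact A.not_star_of_stop hu hv hw'

theorem DFAwtw.acc_read {q p : Q} {u v : List α} {a : α} (hu : u ∈ star (A.tau q))
    (ha : A.delta q a = some p) :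
    Relation.ReflTransGen (Step A) (.run q (u ++ a :: v)) .accept ↔
      Relation.ReflTransGen (Step A) (.run p (u ++ v)) .accept := by
  constructor
  · intro h
    rcases Relation.ReflTransGen.cases_head h with h | ⟨c, hc, hc'⟩
    · cases h
    · generalize hw : u ++ a :: v = w at hc
      cases hc with
      | read _ p' u' a' v' hu' ha' =>
        obtain ⟨rfl, rfl, rfl⟩ := A.split_unique hu hu' (A.readable ha) (A.readable ha') hw
        rw [ha] at ha'; cases ha'
        exact hc'
      | stuck _ u' a' v' hu' ha' hv' =>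
        obtain ⟨rfl, rfl, rfl⟩ := A.split_unique hu hu' (A.readable ha) hv' hw
        rw [ha] at ha'; cases ha'
      | endAccept _ _ hw' hq =>
        rw [← hw] at hw'; exact (A.not_star_of_stop hu (A.readable ha) hw').elim
      | endReject _ _ hw' hq =>
        rw [← hw] at hw'; exact (A.not_star_of_stop hu (A.readable ha) hw').elim
  · intro h
    exact Relation.ReflTransGen.head (.read q p u a v hu ha) h

end Pool.Agent.Lib.MP_cf558f_lc
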