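import Pool.Agent.Lib.MP_cf558f_lc.Pure

namespace Pool.Agent.Lib.MP_cf558f_lc

open Pool.Agent.Lib.Ram

variable {Q α : Type} (A : DFAwtw Q α)

def Valid : Option (Q × List α) → Prop
  | none => True
  | some (q, u) => u = [] ∨ ∃ y ∈ A.tau q, u <+: y

open Classical in
noncomputable def tokStep (a : α) : Option (Q × List α) → Option (Q × List α)
  | none => none
  | some (q, u) => if u ++ [a] ∈ A.tau q then some (q, []) else
      if ∃ y ∈ A.tau q, u ++ [a] <+: y then some (q, u ++ [a]) else none

def isRoot : Option (Q × List α) → Bool
  | some (_, []) => true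
  | _ => false

theorem valid_tokStep (a : α) (t : Option (Q × List α)) : Valid A (tokStep A a t) := by
  rcases t with _ | ⟨q, u⟩
  · trivial
  · simp only [tokStep]
    split_ifs with h1 h2
    · exact Or.inl rfl
    · exact Or.inr h2
    · trivial

noncomputable def tstep (lab : ℕ → Option α) (y : Option (Q × List α) × ℕ) (i : ℕ) :
    Option (Q × List α) × ℕ :=
  match lab i with
  | none => y
  | some a => (tokStep A a y.1, if isRoot y.1 then i + 1 else y.2)

noncomputable def tscan (lab : ℕ → Option α) (q : Q) (m : ℕ) : Option (Q × List α) × ℕ :=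
  (List.range' 0 m).foldl (tstep A lab) (some (q, []), 0)

def word (lab : ℕ → Option α) (a len : ℕ) : List α := (List.range' a len).filterMap lab

theorem word_add (lab : ℕ → Option α) (a l₁ l₂ : ℕ) :
    word lab a (l₁ + l₂) = word lab a l₁ ++ word lab (a + l₁) l₂ := by
  unfold word
  rw [← List.range'_append_1, List.filterMap_append]

theorem word_one (lab : ℕ → Option α) (a : ℕ) : word lab a 1 = (lab a).toList := by
  unfold word
  rcases h : lab a with _ | b <;> simp [h]

theorem word_snoc (lab : ℕ → Option α) {i m : ℕ} (h : i ≤ m) :
    word lab i (m + 1 - i) = word lab i (m - i) ++ (lab m).toList := by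
  have : m + 1 - i = (m - i) + 1 := by omega
  rw [this, word_add, word_one]
  congr 3
  omega

theorem tscan_succ (lab : ℕ → Option α) (q : Q) (m : ℕ) :
    tscan A lab q (m + 1) = tstep A lab (tscan A lab q m) m := by
  unfold tscan
  rw [List.range'_1_concat, List.foldl_append]
  simp

theorem tscan_inv (lab : ℕ → Option α) (q : Q) (m : ℕ) :
    ((tscan A lab q m).1 = some (q, []) ∧ word lab 0 m ∈ star (A.tau q)) ∨
    ∃ i a, i < m ∧ (tscan A lab q m).2 = i + 1 ∧ lab i = some a ∧
      word lab 0 i ∈ star (A.tau q) ∧
      (((tscan A lab q m).1 = some (q, word lab i (m - i)) ∧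
        ∃ y ∈ A.tau q, word lab i (m - i) <+: y ∧ word lab i (m - i) ≠ y) ∨
       ((tscan A lab q m).1 = none ∧ ∀ ext, ∀ y ∈ A.tau q, ¬ y <+: word lab i (m - i) ++ ext)) := by
  induction m with
  | zero => left; exact ⟨rfl, star_nil⟩
  | succ m ih =>
    rw [tscan_succ]
    set t := tscan A lab q m with ht
    rcases hb : lab m with _ | b
    · simp only [tstep, hb]
      rcases ih with ⟨h1, h2⟩ | ⟨i, a, him, hp, ha, hw, hor⟩
      · left
        refine ⟨h1, ?_⟩
        have := word_snoc lab (Nat.zero_le m)
        rw [Nat.sub_zero, Nat.sub_zero, hb] at this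
        rw [this]; simpa using h2
      · right
        refine ⟨i, a, by omega, hp, ha, hw, ?_⟩
        rw [word_snoc lab (by omega : i ≤ m), hb]
        simpa using hor
    · simp only [tstep, hb]
      have hw0 := word_snoc lab (Nat.zero_le m)
      rw [Nat.sub_zero, Nat.sub_zero, hb, Option.toList_some] at hw0
      rcases ih with ⟨h1, h2⟩ | ⟨i, a, him, hp, ha, hw, hor⟩
      · -- at the root
        rw [h1]
        simp only [tokStep, List.nil_append, isRoot, if_true]
        split_ifs with c1 c2
        · left
          exact ⟨rfl, by rw [hw0]; exact star_append h2 (star_mem c1)⟩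
        · right
          have e : word lab m (m + 1 - m) = [b] := by
            have : m + 1 - m = 1 := by omega
            rw [this, word_one, hb]; rfl
          refine ⟨m, b, by omega, rfl, hb, h2, Or.inl ?_⟩
          rw [e]
          obtain ⟨y, hy, hpre⟩ := c2
          exact ⟨rfl, y, hy, hpre, fun h => c1 (h ▸ hy)⟩
        · right
          have e : word lab m (m + 1 - m) = [b] := by
            have : m + 1 - m = 1 := by omega
            rw [this, word_one, hb]; rfl
          refine ⟨m, b, by omega, rfl, hb, h2, Or.inr ⟨rfl, ?_⟩⟩
          rw [e]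
          intro ext y hy hpre
          rcases y with _ | ⟨c, y⟩
          · exact A.ne_nil hy rfl
          · have hcb : c = b := by
              obtain ⟨t, ht⟩ := hpre
              simp at ht
              exact ht.1
            subst hcb
            exact c2 ⟨c :: y, hy, ⟨y, by simp⟩⟩
      · have hsn := word_snoc lab (by omega : i ≤ m)
        rw [hb, Option.toList_some] at hsn
        set u := word lab i (m - i) with hu
        have hune : u ≠ [] := by
          have : m - i = 1 + (m - i - 1) := by omega
          rw [hu, this, word_add, word_one, ha]; simp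
        have hwm : word lab 0 m = word lab 0 i ++ u := by
          have : m = i + (m - i) := by omega
          rw [hu]
          conv_lhs => rw [this, word_add, Nat.zero_add]
        rcases hor with ⟨ht1, y₀, hy₀, hpre₀, hne₀⟩ | ⟨ht1, hf⟩
        · have hnr : isRoot t.1 = false := by
            rw [ht1]
            rcases u with _ | ⟨c, u⟩
            · exact absurd rfl hune
            · rfl
          rw [hnr, ht1]
          simp only [tokStep, Bool.false_eq_true, if_false]
          split_ifs with c1 c2
          · left
            refine ⟨rfl, ?_⟩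
            rw [hw0, hwm, List.append_assoc]
            exact star_append hw (star_mem c1)
          · right
            refine ⟨i, a, by omega, hp, ha, hw, Or.inl ?_⟩
            rw [hsn]
            obtain ⟨y, hy, hpre⟩ := c2
            exact ⟨rfl, y, hy, hpre, fun h => c1 (h ▸ hy)⟩
          · right
            refine ⟨i, a, by omega, hp, ha, hw, Or.inr ⟨rfl, ?_⟩⟩
            rw [hsn]
            intro ext y hy hpre
            have h2 : u ++ [b] <+: u ++ [b] ++ ext := List.prefix_append _ _
            rcases List.prefix_or_prefix_of_prefix h2 hpre with h | h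
            · exact c2 ⟨y, hy, h⟩
            · by_cases hyu : y = u ++ [b]
              · exact c1 (hyu ▸ hy)
              · have hlen : y.length ≤ u.length := by
                  have h3 := h.length_le
                  have h4 : y.length ≠ (u ++ [b]).length := fun h5 => hyu (h.eq_of_length h5)
                  simp at h3 h4
                  omega
                have h5 : y <+: u :=
                  List.prefix_of_prefix_length_le h (List.prefix_append _ _) hlen
                have h6 := A.pre hy hy₀ (h5.trans hpre₀)
                subst h6
                exact hne₀ (hpre₀.eq_of_length_le h5.length_le)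
        · right
          have hnr : isRoot t.1 = false := by rw [ht1]; rfl
          rw [hnr, ht1]
          simp only [tokStep, Bool.false_eq_true, if_false]
          refine ⟨i, a, by omega, hp, ha, hw, Or.inr ⟨trivial, ?_⟩⟩
          rw [hsn]
          intro ext y hy hpre
          exact hf ([b] ++ ext) y hy (by rwa [← List.append_assoc])

theorem tscan_spec (lab : ℕ → Option α) (q : Q) (m : ℕ) :
    ((tscan A lab q m).1 = some (q, []) ∧ word lab 0 m ∈ star (A.tau q)) ∨
    ((tscan A lab q m).1 ≠ some (q, []) ∧ ∃ i a, i < m ∧ (tscan A lab q m).2 = i + 1 ∧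
      lab i = some a ∧ word lab 0 m = word lab 0 i ++ a :: word lab (i + 1) (m - (i + 1)) ∧
      word lab 0 i ∈ star (A.tau q) ∧
      ¬ ∃ x ∈ A.tau q, x <+: a :: word lab (i + 1) (m - (i + 1))) := by
  rcases tscan_inv A lab q m with h | ⟨i, a, him, hp, ha, hw, hor⟩
  · exact Or.inl h
  · right
    have hword : word lab i (m - i) = a :: word lab (i + 1) (m - (i + 1)) := by
      have : m - i = 1 + (m - (i + 1)) := by omega
      rw [this, word_add, word_one, ha]; rfl
    have hwm : word lab 0 m = word lab 0 i ++ word lab i (m - i) := by
      have : m = i + (m - i) := by omega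
      conv_lhs => rw [this, word_add, Nat.zero_add]
    rw [hword] at hwm hor
    rcases hor with ⟨ht, y, hy, hpre, hne⟩ | ⟨ht, hf⟩
    · refine ⟨by rw [ht]; simp, i, a, him, hp, ha, hwm, hw, ?_⟩
      rintro ⟨x, hx, hxp⟩
      have := A.pre hx hy (hxp.trans hpre)
      subst this
      exact hne (hpre.eq_of_length_le hxp.length_le)
    · refine ⟨by rw [ht]; simp, i, a, him, hp, ha, hwm, hw, ?_⟩
      rintro ⟨x, hx, hxp⟩
      exact hf [] x hx (by rwa [List.append_nil])

theorem word_update_of_not_mem (lab : ℕ → Option α) (p a len : ℕ) (h : p < a ∨ a + len ≤ p) :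
    word (Function.update lab p none) a len = word lab a len := by
  unfold word
  apply List.filterMap_congr
  intro i hi
  rw [List.mem_range'_1] at hi
  rw [Function.update_of_ne (by omega)]

theorem word_delete (lab : ℕ → Option α) {i m : ℕ} (h : i < m) :
    word (Function.update lab i none) 0 m = word lab 0 i ++ word lab (i + 1) (m - (i + 1)) := by
  have e : m = i + (1 + (m - (i + 1))) := by omega
  conv_lhs => rw [e, word_add, word_add, Nat.zero_add, word_one]
  rw [word_update_of_not_mem _ _ _ _ (by omega), word_update_of_not_mem _ _ _ _ (by omega)]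
  simp

end Pool.Agent.Lib.MP_cf558f_lc
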