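import Pool.Agent.Lib.Ram.Rules

namespace Pool.Agent.Lib.MP_cf558f_lc

open Pool.Agent.Lib.Ram

/-- finite tables of the scanning automaton -/
structure Tab where
  S : ℕ
  L : ℕ
  nx : ℕ → ℕ → ℕ
  rt : ℕ → Bool
  dl : ℕ → ℕ → ℕ
  ac : ℕ → Bool
  s0 : ℕ
  nx_lt : ∀ c < L, ∀ s < S, nx c s < S
  dl_le : ∀ s < S, ∀ c < L, dl s c ≤ S
  s0_lt : s0 < S
  rt_s0 : rt s0 = true
  rt_dl : ∀ s < S, ∀ c < L, ∀ s', dl s c = s' + 1 → rt s' = true

variable (D : Tab)

/-- one scanning step at position `i` -/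
def Tab.scanStep (lab : ℕ → Option ℕ) (y : ℕ × ℕ) (i : ℕ) : ℕ × ℕ :=
  match lab i with
  | none => y
  | some c => (D.nx c y.1, if D.rt y.1 then i + 1 else y.2)

def Tab.scan (lab : ℕ → Option ℕ) (a len : ℕ) (y : ℕ × ℕ) : ℕ × ℕ :=
  (List.range' a len).foldl (D.scanStep lab) y

/-- The abstract computation on labelled positions. -/
inductive Tab.Res (N : ℕ) : ℕ → (ℕ → Option ℕ) → Bool → Prop
  | stop (s : ℕ) (lab : ℕ → Option ℕ) (h : (D.scan lab 0 N (s, 0)).1 = s) :
      Tab.Res N s lab (D.ac s)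
  | rej (s i c : ℕ) (lab : ℕ → Option ℕ) (h : (D.scan lab 0 N (s, 0)).1 ≠ s)
      (hi : (D.scan lab 0 N (s, 0)).2 = i + 1) (hc : lab i = some c) (hd : D.dl s c = 0) :
      Tab.Res N s lab false
  | go (s i c s' : ℕ) (lab : ℕ → Option ℕ) (b : Bool) (h : (D.scan lab 0 N (s, 0)).1 ≠ s)
      (hi : (D.scan lab 0 N (s, 0)).2 = i + 1) (hc : lab i = some c) (hd : D.dl s c = s' + 1)
      (hr : Tab.Res N s' (Function.update lab i none) b) : Tab.Res N s lab b

theorem Tab.scan_root (lab : ℕ → Option ℕ) (s : ℕ) (hs : D.rt s = true) (m : ℕ) :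
    D.scan lab 0 m (s, 0) = (s, 0) ∨
      ∃ i c, (D.scan lab 0 m (s, 0)).2 = i + 1 ∧ i < m ∧ lab i = some c := by
  induction m with
  | zero => left; simp [Tab.scan]
  | succ m ih =>
    have hst : D.scan lab 0 (m + 1) (s, 0) = D.scanStep lab (D.scan lab 0 m (s, 0)) m := by
      unfold Tab.scan
      rw [List.range'_1_concat, List.foldl_append]
      simp
    rw [hst]
    rcases hl : lab m with _ | c
    · simp only [Tab.scanStep, hl]
      rcases ih with h | ⟨i, c, h1, h2, h3⟩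
      · left; exact h
      · right; exact ⟨i, c, h1, by omega, h3⟩
    · right
      simp only [Tab.scanStep, hl]
      split_ifs with hr
      · exact ⟨m, c, rfl, by omega, hl⟩
      · rcases ih with h | ⟨i, c', h1, h2, h3⟩
        · rw [h] at hr; exact absurd hs hr
        · exact ⟨i, c', h1, by omega, h3⟩

def Tab.R : ℕ := 2 * D.S

def Tab.rc (m : ℕ → ℕ) (n i f : ℕ) : ℕ := m (n + D.R * i + f)

def Tab.lfT (l : Option ℕ) (s : ℕ) : ℕ := match l with | none => s | some c => D.nx c s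
def Tab.lfP (l : Option ℕ) (p s : ℕ) : ℕ :=
  match l with | none => 0 | some _ => if D.rt s then p + 1 else 0

def Tab.nT (m : ℕ → ℕ) (n i s : ℕ) : ℕ := D.rc m n (2 * i + 1) (D.rc m n (2 * i) s)
def Tab.nP (m : ℕ → ℕ) (n i s : ℕ) : ℕ :=
  if D.rc m n (2 * i + 1) (D.S + D.rc m n (2 * i) s) ≠ 0 then
    D.rc m n (2 * i + 1) (D.S + D.rc m n (2 * i) s) else D.rc m n (2 * i) (D.S + s)

structure Tab.OK (m : ℕ → ℕ) (n N : ℕ) (lab : ℕ → Option ℕ) (ex : ℕ) : Prop where
  leafT : ∀ p < N, ∀ s < D.S, D.rc m n (N + p) s = D.lfT (lab p) s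
  leafP : ∀ p < N, ∀ s < D.S, D.rc m n (N + p) (D.S + s) = D.lfP (lab p) p s
  innT : ∀ i, 1 ≤ i → i < N → i ≠ ex → ∀ s < D.S, D.rc m n i s = D.nT m n i s
  innP : ∀ i, 1 ≤ i → i < N → i ≠ ex → ∀ s < D.S, D.rc m n i (D.S + s) = D.nP m n i s
  lt : ∀ i, 1 ≤ i → i < 2 * N → ∀ s < D.S, D.rc m n i s < D.S

theorem Tab.S_pos : 0 < D.S := lt_of_le_of_lt (Nat.zero_le _) D.s0_lt

theorem Tab.scan_append (lab : ℕ → Option ℕ) (a l₁ l₂ : ℕ) (y : ℕ × ℕ) :
    D.scan lab a (l₁ + l₂) y = D.scan lab (a + l₁) l₂ (D.scan lab a l₁ y) := by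
  unfold Tab.scan
  rw [← List.range'_append_1, List.foldl_append]

/-- dependence of a scan on the recorded position -/
theorem Tab.scan_pos (lab : ℕ → Option ℕ) (len : ℕ) : ∀ (a s p : ℕ),
    D.scan lab a len (s, p) = ((D.scan lab a len (s, 0)).1,
      if (D.scan lab a len (s, 0)).2 ≠ 0 then (D.scan lab a len (s, 0)).2 else p) := by
  induction len with
  | zero => intro a s p; simp [Tab.scan]
  | succ len ih =>
    intro a s p
    rw [Nat.add_comm len 1, D.scan_append, D.scan_append]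
    have h1 : ∀ p, D.scan lab a 1 (s, p) = D.scanStep lab (s, p) a := by
      intro p; simp [Tab.scan]
    rw [h1, h1]
    rcases hl : lab a with _ | c
    · simp only [Tab.scanStep, hl]
      exact ih _ _ _
    · simp only [Tab.scanStep, hl]
      by_cases hr : D.rt s
      · simp only [hr, if_true]
        have hne : (D.scan lab (a + 1) len (D.nx c s, a + 1)).2 ≠ 0 := by
          rw [ih]
          dsimp only
          split_ifs with h
          · exact h
          · omega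
        rw [if_pos hne]
      · simp only [hr]
        exact ih _ _ _

theorem Tab.scan_one (lab : ℕ → Option ℕ) (p s : ℕ) :
    D.scan lab p 1 (s, 0) = (D.lfT (lab p) s, D.lfP (lab p) p s) := by
  have h1 : D.scan lab p 1 (s, 0) = D.scanStep lab (s, 0) p := by simp [Tab.scan]
  rw [h1]
  rcases hl : lab p with _ | c
  · simp [Tab.scanStep, hl, Tab.lfT, Tab.lfP]
  · simp [Tab.scanStep, hl, Tab.lfT, Tab.lfP]

/-- the records of a consistent tree are the scans of the blocks of positions -/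
theorem Tab.OK.node {D : Tab} {m : ℕ → ℕ} {n N : ℕ} {lab : ℕ → Option ℕ}
    (h : D.OK m n N lab 0) : ∀ (l k : ℕ), N = 2 ^ (k + l) → ∀ j < 2 ^ k, ∀ s < D.S,
      (D.rc m n (2 ^ k + j) s, D.rc m n (2 ^ k + j) (D.S + s)) =
        D.scan lab (2 ^ l * j) (2 ^ l) (s, 0) := by
  intro l
  induction l with
  | zero =>
    intro k hN j hj s hs
    rw [Nat.add_zero] at hN
    rw [← hN] at hj ⊢
    rw [pow_zero, Nat.one_mul, D.scan_one, h.leafT j hj s hs, h.leafP j hj s hs]
  | succ l ih =>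
    intro k hN j hj s hs
    have hN' : N = 2 ^ (k + 1 + l) := by rw [hN]; congr 1; omega
    have hpow : 2 ^ (k + 1) = 2 * 2 ^ k := by rw [pow_succ]; ring
    have hkN : 2 ^ k + 2 ^ k ≤ N := by
      rw [hN', show k + 1 + l = l + (k + 1) by omega, pow_add, hpow]
      nlinarith [Nat.one_le_two_pow (n := l), Nat.one_le_two_pow (n := k)]
    have h1 : 1 ≤ 2 ^ k + j := by have := Nat.one_le_two_pow (n := k); omega
    rw [h.innT _ h1 (by omega) (by omega) s hs, h.innP _ h1 (by omega) (by omega) s hs]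
    have e1 : 2 * (2 ^ k + j) = 2 ^ (k + 1) + 2 * j := by rw [hpow]; ring
    have e2 : 2 * (2 ^ k + j) + 1 = 2 ^ (k + 1) + (2 * j + 1) := by rw [hpow]; ring
    have ihl := ih (k + 1) hN' (2 * j) (by omega) s hs
    have hlt : D.rc m n (2 ^ (k + 1) + 2 * j) s < D.S := by
      refine h.lt _ ?_ ?_ s hs
      · omega
      · omega
    have ihr := ih (k + 1) hN' (2 * j + 1) (by omega) _ hlt
    unfold Tab.nT Tab.nP
    rw [e2, e1]
    have hsc : D.scan lab (2 ^ (l + 1) * j) (2 ^ (l + 1)) (s, 0) =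
        D.scan lab (2 ^ l * (2 * j + 1)) (2 ^ l) (D.scan lab (2 ^ l * (2 * j)) (2 ^ l) (s, 0)) := by
      have : 2 ^ (l + 1) = 2 ^ l + 2 ^ l := by rw [pow_succ]; ring
      rw [this, D.scan_append]
      congr 1
      · ring
      · congr 1; ring
    rw [hsc, ← ihl, D.scan_pos, ← ihr]

theorem Tab.OK.root {D : Tab} {m : ℕ → ℕ} {n N k : ℕ} {lab : ℕ → Option ℕ}
    (h : D.OK m n N lab 0) (hN : N = 2 ^ k) (s : ℕ) (hs : s < D.S) :
    (D.rc m n 1 s, D.rc m n 1 (D.S + s)) = D.scan lab 0 N (s, 0) := by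
  have := h.node k 0 (by rw [hN]; congr 1; omega) 0 (by simp) s hs
  simpa [hN] using this

theorem Tab.rc_inj {n i j f g : ℕ} (hf : f < D.R) (hg : g < D.R)
    (h : n + D.R * i + f = n + D.R * j + g) : i = j ∧ f = g := by
  have hR : 0 < D.R := by omega
  have h' : D.R * i + f = D.R * j + g := by omega
  have h1 := congrArg (· / D.R) h'
  have h2 := congrArg (· % D.R) h'
  simp only [Nat.mul_add_div hR, Nat.mul_add_mod, Nat.div_eq_of_lt hf, Nat.div_eq_of_lt hg,
    Nat.mod_eq_of_lt hf, Nat.mod_eq_of_lt hg, Nat.add_zero] at h1 h2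
  exact ⟨h1, h2⟩

/-- Recomputing the exceptional node moves the exception to its parent. -/
theorem Tab.OK.pull {D : Tab} {m m' : ℕ → ℕ} {n N j : ℕ} {lab : ℕ → Option ℕ}
    (h : D.OK m n N lab j) (hj : 1 ≤ j) (hjN : j < N)
    (hT : ∀ s < D.S, D.rc m' n j s = D.nT m n j s)
    (hP : ∀ s < D.S, D.rc m' n j (D.S + s) = D.nP m n j s)
    (hfr : ∀ i, i ≠ j → ∀ f < D.R, D.rc m' n i f = D.rc m n i f) :
    D.OK m' n N lab (j / 2) := by
  have hR : D.R = 2 * D.S := rfl
  have hnT : ∀ i, 1 ≤ i → i < N → 2 * i ≠ j → 2 * i + 1 ≠ j → ∀ s < D.S,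
      D.nT m' n i s = D.nT m n i s := by
    intro i h1 h2 h3 h4 s hs
    unfold Tab.nT
    rw [hfr _ h3 s (by omega)]
    have := h.lt (2 * i) (by omega) (by omega) s hs
    rw [hfr _ h4 _ (by omega)]
  have hnP : ∀ i, 1 ≤ i → i < N → 2 * i ≠ j → 2 * i + 1 ≠ j → ∀ s < D.S,
      D.nP m' n i s = D.nP m n i s := by
    intro i h1 h2 h3 h4 s hs
    unfold Tab.nP
    rw [hfr _ h3 s (by omega)]
    have := h.lt (2 * i) (by omega) (by omega) s hs
    rw [hfr _ h4 _ (by omega), hfr _ h3 _ (by omega)]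
  constructor
  · intro p hp s hs
    rw [hfr _ (by omega) _ (by omega)]; exact h.leafT p hp s hs
  · intro p hp s hs
    rw [hfr _ (by omega) _ (by omega)]; exact h.leafP p hp s hs
  · intro i h1 h2 h3 s hs
    by_cases hij : i = j
    · subst hij
      rw [hT s hs, hnT i h1 h2 (by omega) (by omega) s hs]
    · rw [hfr _ hij _ (by omega), hnT i h1 h2 (by omega) (by omega) s hs]
      exact h.innT i h1 h2 hij s hs
  · intro i h1 h2 h3 s hs
    by_cases hij : i = j
    · subst hij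
      rw [hP s hs, hnP i h1 h2 (by omega) (by omega) s hs]
    · rw [hfr _ hij _ (by omega), hnP i h1 h2 (by omega) (by omega) s hs]
      exact h.innP i h1 h2 hij s hs
  · intro i h1 h2 s hs
    by_cases hij : i = j
    · subst hij
      rw [hT s hs]
      exact h.lt _ (by omega) (by omega) _ (h.lt _ (by omega) (by omega) _ hs)
    · rw [hfr _ hij _ (by omega)]; exact h.lt i h1 h2 s hs

/-- Overwriting a leaf of a consistent tree. -/
theorem Tab.OK.leaf {D : Tab} {m m' : ℕ → ℕ} {n N p : ℕ} {lab : ℕ → Option ℕ} {o : Option ℕ}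
    (h : D.OK m n N lab 0) (hp : p < N) (ho : ∀ c, o = some c → c < D.L)
    (hT : ∀ s < D.S, D.rc m' n (N + p) s = D.lfT o s)
    (hP : ∀ s < D.S, D.rc m' n (N + p) (D.S + s) = D.lfP o p s)
    (hfr : ∀ i, i ≠ N + p → ∀ f < D.R, D.rc m' n i f = D.rc m n i f) :
    D.OK m' n N (Function.update lab p o) ((N + p) / 2) := by
  have hR : D.R = 2 * D.S := rfl
  have hnT : ∀ i, 1 ≤ i → i < N → 2 * i ≠ N + p → 2 * i + 1 ≠ N + p → ∀ s < D.S,
      D.nT m' n i s = D.nT m n i s := by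
    intro i h1 h2 h3 h4 s hs
    unfold Tab.nT
    rw [hfr _ h3 s (by omega)]
    have := h.lt (2 * i) (by omega) (by omega) s hs
    rw [hfr _ h4 _ (by omega)]
  have hnP : ∀ i, 1 ≤ i → i < N → 2 * i ≠ N + p → 2 * i + 1 ≠ N + p → ∀ s < D.S,
      D.nP m' n i s = D.nP m n i s := by
    intro i h1 h2 h3 h4 s hs
    unfold Tab.nP
    rw [hfr _ h3 s (by omega)]
    have := h.lt (2 * i) (by omega) (by omega) s hs
    rw [hfr _ h4 _ (by omega), hfr _ h3 _ (by omega)]
  constructor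
  · intro q hq s hs
    by_cases hqp : q = p
    · subst hqp; rw [hT s hs]; simp
    · rw [hfr _ (by omega) _ (by omega), Function.update_of_ne hqp]; exact h.leafT q hq s hs
  · intro q hq s hs
    by_cases hqp : q = p
    · subst hqp; rw [hP s hs]; simp
    · rw [hfr _ (by omega) _ (by omega), Function.update_of_ne hqp]; exact h.leafP q hq s hs
  · intro i h1 h2 h3 s hs
    rw [hfr _ (by omega) _ (by omega), hnT i h1 h2 (by omega) (by omega) s hs]
    exact h.innT i h1 h2 (by omega) s hs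
  · intro i h1 h2 h3 s hs
    rw [hfr _ (by omega) _ (by omega), hnP i h1 h2 (by omega) (by omega) s hs]
    exact h.innP i h1 h2 (by omega) s hs
  · intro i h1 h2 s hs
    by_cases hij : i = N + p
    · subst hij
      rw [hT s hs]
      rcases o with _ | c
      · exact hs
      · exact D.nx_lt c (ho c rfl) s hs
    · rw [hfr _ hij _ (by omega)]; exact h.lt i h1 h2 s hs

end Pool.Agent.Lib.MP_cf558f_lc
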